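import Mathlib

set_option autoImplicit false

/-! Project EG (MP_585e73_co): graphs with prescribed solvable automorphism group and `O(|G|)`
edges. Definitions and task statements. -/

namespace Pool.Agent.H104R3.EG

/-- `Reach nx el root i g`: there is a path of arrows from the root to the node `i`, the product of
the labels of its arrows being `g`. -/
inductive Reach {G ι : Type} [Group G] (nx : Fin 2 → ι → ι) (el : Fin 2 → ι → G) (root : ι) :
    ι → G → Prop
  | base : Reach nx el root root 1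
  | step (e : Fin 2) (i : ι) (g : G) : Reach nx el root i g →
      Reach nx el root (nx e i) (g * el e i)

/-- A finite `G`-set with two equivariant self maps, given by nodes: the node `i` stands for the
coset space `G ⧸ K i`, and the self map `e : Fin 2` sends the coset `k K i` to the coset
`k (el e i) K (nx e i)`. -/
structure Sys (G : Type) [Group G] where
  ι : Type
  fin : Finite ι
  big : 6 ≤ Nat.card ι
  K : ι → Subgroup G
  nx : Fin 2 → ι → ι
  el : Fin 2 → ι → G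
  cond : ∀ e i x, x ∈ K i → (el e i)⁻¹ * x * el e i ∈ K (nx e i)
  root : ι
  root_bot : K root = ⊥
  reach : ∀ i, ∃ g, Reach nx el root i g

/-- `α` is (the restriction to the regular orbit of) an automorphism of the system. -/
def Sys.Aut {G : Type} [Group G] (S : Sys G) (α : G → G) : Prop :=
  ∀ (i : S.ι) (g g' : G), Reach S.nx S.el S.root i g → Reach S.nx S.el S.root i g' →
    ∀ k k' : G, (k * g)⁻¹ * (k' * g') ∈ S.K i → (α k * g)⁻¹ * (α k' * g') ∈ S.K i

/-- the constraint `P` on maps `α : G → G` is enforced by a system of size at most `n` -/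
def Real (G : Type) [Group G] (n : ℕ) (P : (G → G) → Prop) : Prop :=
  ∃ S : Sys G, Nat.card (Σ i, G ⧸ S.K i) ≤ n ∧ ∀ α : G → G, S.Aut α → P α

/-- `α` commutes with right multiplication by `x` -/
def Comm {G : Type} [Group G] (α : G → G) (x : G) : Prop := ∀ k, α (k * x) = α k * x

/-- `α` commutes with right multiplications modulo `N` -/
def ModN {G : Type} [Group G] (N : Subgroup G) (α : G → G) : Prop :=
  ∀ k x, ∃ y ∈ N, α (k * x) = α k * x * y

/-- there is a rigid system of size at most `n` -/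
def Rig (G : Type) [Group G] (n : ℕ) : Prop := Real G n (fun α => ∀ x, Comm α x)

/-- a system of size at most `n` which is rigid once it is rigid modulo `N` -/
def Inc (G : Type) [Group G] (N : Subgroup G) (n : ℕ) : Prop :=
  Real G n (fun α => ModN N α → ∀ x, Comm α x)

/-- `N` is a minimal normal subgroup -/
def MinNormal {G : Type} [Group G] (N : Subgroup G) : Prop :=
  N.Normal ∧ N ≠ ⊥ ∧ ∀ L : Subgroup G, L.Normal → L ≤ N → L = ⊥ ∨ L = N

/-! ### Calculus of systems -/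

/-- A1 -/
def CombR : Prop := ∀ (G : Type) [Group G] [Finite G] (m n : ℕ) (P Q : (G → G) → Prop),
  Real G m P → Real G n Q → Real G (m + n + Nat.card G) (fun α => P α ∧ Q α)

/-- A2 -/
def GenR : Prop := ∀ (G : Type) [Group G] [Finite G] (s : G),
  Real G (6 * Nat.card G) (fun α => Comm α s)

/-- A3 -/
def QuotR : Prop := ∀ (G : Type) [Group G] [Finite G] (N : Subgroup G) [N.Normal] (n : ℕ)
  (P : (G ⧸ N → G ⧸ N) → Prop), Real (G ⧸ N) n P →
  Real G (n + Nat.card G)
    (fun α => ∃ β : G ⧸ N → G ⧸ N, P β ∧ ∀ k : G, β (k : G ⧸ N) = ((α k : G) : G ⧸ N))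

/-- A4 -/
def IndR : Prop := ∀ (G : Type) [Group G] [Finite G] (H : Subgroup G) (n : ℕ)
  (P : (H → H) → Prop), Real H n P →
  Real G (Nat.card G + H.index + H.index * n)
    (fun α => ∀ k : G, ∃ β : H → H, P β ∧ ∀ h : H, α (k * h) = α k * β h)

/-- A5: from a rigid system to a graph. -/
def GraphR : Prop := ∀ (G : Type) [Group G] [Finite G] (n : ℕ), Rig G n →
  ∃ (V : Type) (_ : Finite V) (X : SimpleGraph V),
    Nonempty ((X ≃g X) ≃* G) ∧ Nat.card X.edgeSet ≤ 22 * n

/-- B0: the right multiplications commuting with `α` form a subgroup. -/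
def InvR : Prop := ∀ (G : Type) [Group G] [Finite G] (α : G → G),
  ∃ I : Subgroup G, ∀ x, x ∈ I ↔ Comm α x

/-- B1: sections `M / K` with `K ∩ N = 1`. -/
def SectR : Prop :=
  ∀ (G : Type) [Group G] [Finite G] (N K M : Subgroup G) [N.Normal] [(K.subgroupOf M).Normal]
    (n : ℕ), K ≤ M → K ⊓ N = ⊥ →
    Inc (M ⧸ K.subgroupOf M) ((N.subgroupOf M).map (QuotientGroup.mk' (K.subgroupOf M))) n →
    Real G (3 * Nat.card G + M.index * n) (fun α => ModN N α → ∀ x ∈ M, Comm α x)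

/-- B1': subgroups with `M ∩ N = 1`. -/
def AvoidR : Prop :=
  ∀ (G : Type) [Group G] [Finite G] (N M : Subgroup G) [N.Normal], M ⊓ N = ⊥ →
    Real G (9 * Nat.card G) (fun α => ModN N α → ∀ x ∈ M, Comm α x)

/-- B2: subgroups with a rigid system. -/
def SubR : Prop :=
  ∀ (G : Type) [Group G] [Finite G] (H : Subgroup G) (n : ℕ), Rig H n →
    Real G (Nat.card G + H.index + H.index * n) (fun α => ∀ x ∈ H, Comm α x)

/-- B3: extensions. -/
def ExtR : Prop :=
  ∀ (G : Type) [Group G] [Finite G] (N : Subgroup G) [N.Normal] (m n : ℕ),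
    Rig (G ⧸ N) m → Inc G N n → Rig G (m + n + 2 * Nat.card G)

/-! ### `p`-groups -/

/-- PG1a: a maximal normal abelian subgroup of a `p`-group is self-centralizing. -/
def PGaR : Prop := ∀ (p : ℕ) (_ : p.Prime) (P : Type) [Group P] [Finite P], IsPGroup p P →
  ∀ A : Subgroup P, A.Normal → (∀ x ∈ A, ∀ y ∈ A, x * y = y * x) →
  (∀ B : Subgroup P, B.Normal → (∀ x ∈ B, ∀ y ∈ B, x * y = y * x) → A ≤ B → B = A) →
  ∀ x : P, (∀ y ∈ A, x * y = y * x) → x ∈ A

/-- PG1b: noncyclic normal abelian subgroups. -/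
def PGbR : Prop := ∀ (p : ℕ) (_ : p.Prime) (P : Type) [Group P] [Finite P], IsPGroup p P →
  ∀ N : Subgroup P, N ≤ Subgroup.center P → Nat.card N = p →
  ∀ A : Subgroup P, A.Normal → (∀ x ∈ A, ∀ y ∈ A, x * y = y * x) → N ≤ A → ¬ IsCyclic A →
  ∃ K : Subgroup P, Nat.card K = p ∧ K ⊓ N = ⊥ ∧
    (Subgroup.normalizer (K : Set P)).index ∣ p

/-- PG1c: cyclic self-centralizing normal subgroups. -/
def PGcR : Prop := ∀ (p : ℕ) (_ : p.Prime) (P : Type) [Group P] [Finite P], IsPGroup p P →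
  ∀ A : Subgroup P, A.Normal → IsCyclic A → (∀ x : P, (∀ y ∈ A, x * y = y * x) → x ∈ A) →
  ∃ a b c : P, Subgroup.closure {a, b, c} = ⊤

/-- PG1: the dichotomy. -/
def PGR : Prop := ∀ (p : ℕ) (_ : p.Prime) (P : Type) [Group P] [Finite P], IsPGroup p P →
  ∀ N : Subgroup P, N ≤ Subgroup.center P → Nat.card N = p →
  (∃ K : Subgroup P, Nat.card K = p ∧ K ⊓ N = ⊥ ∧
    (Subgroup.normalizer (K : Set P)).index ∣ p) ∨
  ∃ a b c : P, Subgroup.closure {a, b, c} = ⊤

/-- PG2 -/
def PIncR : Prop := ∀ (p : ℕ) (_ : p.Prime) (P : Type) [Group P] [Finite P], IsPGroup p P →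
  ∀ N : Subgroup P, N ≤ Subgroup.center P → Nat.card N = p → Inc P N (20 * Nat.card P)

/-- PG3 -/
def PRigR : Prop := ∀ (p : ℕ) (_ : p.Prime) (P : Type) [Group P] [Finite P], IsPGroup p P →
  Rig P (44 * Nat.card P)

/-- PG4 -/
def PMinR : Prop := ∀ (p : ℕ) (_ : p.Prime) (P : Type) [Group P] [Finite P], IsPGroup p P →
  ∀ N : Subgroup P, MinNormal N → N ≤ Subgroup.center P ∧ Nat.card N = p

/-! ### Solvable groups -/

/-- S0 -/
def MinPR : Prop := ∀ (G : Type) [Group G] [Finite G] [Group.IsSolvable G] (N : Subgroup G),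
  MinNormal N → ∃ p : ℕ, p.Prime ∧ IsPGroup p N

/-- S1 -/
def StrR : Prop := ∀ (G : Type) [Group G] [Finite G] [Group.IsSolvable G] (p : ℕ) (_ : p.Prime)
  (N : Subgroup G), MinNormal N → IsPGroup p N →
  (∀ W : Subgroup G, W.Normal → W ⊓ N = ⊥ → W = ⊥) → ¬ IsPGroup p G →
  ∃ P Q : Subgroup G, IsPGroup p P ∧ (∀ x ∈ N, ∀ y ∈ P, x * y = y * x) ∧ Q ≠ ⊥ ∧ Q ⊓ N = ⊥ ∧
    P ⊔ Subgroup.normalizer (Q : Set G) = ⊤

/-- S2: `N ∩ N_G(Q)` is trivial or `N`. -/
def CaseR : Prop := ∀ (G : Type) [Group G] [Finite G] (N P Q : Subgroup G),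
  MinNormal N → (∀ x ∈ N, ∀ y ∈ P, x * y = y * x) → Q ⊓ N = ⊥ →
  P ⊔ Subgroup.normalizer (Q : Set G) = ⊤ →
  (Subgroup.normalizer (Q : Set G) ⊓ N = ⊥ ∨ N ≤ Subgroup.normalizer (Q : Set G)) ∧
  ∀ L : Subgroup G, L ≤ N → (∀ m ∈ Subgroup.normalizer (Q : Set G), ∀ x ∈ L, m * x * m⁻¹ ∈ L) →
    L.Normal

/-- S3: minimal normal subgroups in sections. -/
def MinImgR : Prop := ∀ (G : Type) [Group G] [Finite G] (N K M : Subgroup G)
  [(K.subgroupOf M).Normal], MinNormal N → K ≤ M → N ≤ M → K ⊓ N = ⊥ →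
  (∀ L : Subgroup G, L ≤ N → (∀ m ∈ M, ∀ x ∈ L, m * x * m⁻¹ ∈ L) → L.Normal) →
  MinNormal ((N.subgroupOf M).map (QuotientGroup.mk' (K.subgroupOf M)))

/-- S4 -/
def SolvIncR : Prop := ∀ (G : Type) [Group G] [Finite G] [Group.IsSolvable G] (p : ℕ) (_ : p.Prime)
  (N : Subgroup G), MinNormal N → IsPGroup p N → Inc G N (100 * Nat.card G)

/-- S5 -/
def SolvRigR : Prop := ∀ (G : Type) [Group G] [Finite G] [Group.IsSolvable G],
  Rig G (204 * Nat.card G)

/-! ### Tasks with hypotheses -/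

def TaskSect : Prop := QuotR → IndR → SectR
def TaskAvoid : Prop := SectR → GenR → AvoidR
def TaskSub : Prop := IndR → SubR
def TaskExt : Prop := CombR → QuotR → ExtR
def TaskPG : Prop := PGaR → PGbR → PGcR → PGR
def TaskPInc : Prop := CombR → GenR → InvR → SectR → PGR → PIncR
def TaskPRig : Prop := GenR → ExtR → PIncR → PRigR
def TaskSolvInc : Prop := CombR → InvR → SectR → AvoidR → SubR → PIncR → PRigR → PMinR → StrR →
  CaseR → MinImgR → SolvIncR
def TaskSolvRig : Prop := GenR → ExtR → MinPR → SolvIncR → SolvRigR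

theorem final (a1 : CombR) (a2 : GenR) (a3 : QuotR) (a4 : IndR) (a5 : GraphR) (b0 : InvR)
    (t1 : TaskSect) (t2 : TaskAvoid) (t3 : TaskSub) (t4 : TaskExt) (p1 : PGaR) (p2 : PGbR)
    (p3 : PGcR) (t5 : TaskPG) (t6 : TaskPInc) (t7 : TaskPRig) (p4 : PMinR) (s0 : MinPR)
    (s1 : StrR) (s2 : CaseR) (s3 : MinImgR) (t8 : TaskSolvInc) (t9 : TaskSolvRig) :
    ∃ c : ℕ, ∀ (G : Type) [Group G] [Finite G] [Group.IsSolvable G],
      ∃ (V : Type) (_ : Finite V) (X : SimpleGraph V),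
        Nonempty ((X ≃g X) ≃* G) ∧ Nat.card X.edgeSet ≤ c * Nat.card G := by
  have sect : SectR := t1 a3 a4
  have avoid : AvoidR := t2 sect a2
  have sub : SubR := t3 a4
  have ext : ExtR := t4 a1 a3
  have pg : PGR := t5 p1 p2 p3
  have pinc : PIncR := t6 a1 a2 b0 sect pg
  have prig : PRigR := t7 a2 ext pinc
  have sinc : SolvIncR := t8 a1 b0 sect avoid sub pinc prig p4 s1 s2 s3
  have srig : SolvRigR := t9 a2 ext s0 sinc
  refine ⟨22 * 204, fun G _ _ _ => ?_⟩
  obtain ⟨V, hV, X, h1, h2⟩ := a5 G _ (srig G)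
  exact ⟨V, hV, X, h1, by rw [mul_assoc]; exact h2⟩

end Pool.Agent.H104R3.EG
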