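import Pool.Agent.H104R3.EG.Stmts

set_option autoImplicit false

namespace Pool.Agent.H104R3.EG

theorem normal_of_stable {G : Type} [Group G] (N P M : Subgroup G)
    (hP : ∀ x ∈ N, ∀ y ∈ P, x * y = y * x) (hPM : P ⊔ M = ⊤) (L : Subgroup G) (hL : L ≤ N)
    (hM : ∀ m ∈ M, ∀ x ∈ L, m * x * m⁻¹ ∈ L) : L.Normal := by
  have h1 : P ≤ Subgroup.normalizer (L : Set G) := by
    intro y hy
    rw [Subgroup.mem_normalizer_iff]
    intro x
    constructor
    · intro hx
      have : y * x * y⁻¹ = x := by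
        rw [← hP x (hL hx) y hy]; group
      rw [this]
      exact hx
    · intro hx
      have h2 := hP _ (hL hx) y hy
      have : x = y * x * y⁻¹ := by
        have h3 : y * x * y⁻¹ * y = y * (y * x * y⁻¹) := h2
        have h4 : y * x = y * (y * x * y⁻¹) := by
          rw [← h3]; group
        exact mul_left_cancel h4
      rw [this]
      exact hx
  have h2 : M ≤ Subgroup.normalizer (L : Set G) := by
    intro m hm
    rw [Subgroup.mem_normalizer_iff]
    intro x
    constructor
    · exact fun hx => hM m hm x hx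
    · intro hx
      have h3 := hM m⁻¹ (M.inv_mem hm) _ hx
      have h4 : m⁻¹ * (m * x * m⁻¹) * m⁻¹⁻¹ = x := by group
      rwa [h4] at h3
  have h3 : Subgroup.normalizer (L : Set G) = ⊤ := by
    rw [eq_top_iff, ← hPM]
    exact sup_le h1 h2
  exact Subgroup.normalizer_eq_top_iff.1 h3

theorem caseR : CaseR := by
  intro G _ _ N P Q hN hP hQ hPM
  have key : ∀ L : Subgroup G, L ≤ N →
      (∀ m ∈ Subgroup.normalizer (Q : Set G), ∀ x ∈ L, m * x * m⁻¹ ∈ L) → L.Normal :=
    fun L hL hM => normal_of_stable N P _ hP hPM L hL hM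
  refine ⟨?_, key⟩
  have hNn := hN.1
  have h1 : (Subgroup.normalizer (Q : Set G) ⊓ N).Normal := by
    refine key _ inf_le_right ?_
    intro m hm x hx
    exact Subgroup.mem_inf.2 ⟨Subgroup.mul_mem _ (Subgroup.mul_mem _ hm (Subgroup.mem_inf.1 hx).1)
      (Subgroup.inv_mem _ hm), hNn.conj_mem x (Subgroup.mem_inf.1 hx).2 m⟩
  rcases hN.2.2 _ h1 inf_le_right with h | h
  · exact Or.inl h
  · right
    rw [← h]
    exact inf_le_left

end Pool.Agent.H104R3.EG
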