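import Pool.Agent.H104R3.EG.Stmts

set_option autoImplicit false

namespace Pool.Agent.H104R3.EG.T_GenR

open Pool.Agent.H104R3.EG

variable {G : Type} [Group G]

def nxG (e : Fin 2) (i : Fin 6) : Fin 6 := if e = 0 then i else i + 1

def elG (s : G) (e : Fin 2) (i : Fin 6) : G := if e = 0 ∧ i = 0 then s else 1

theorem reach_nat (s : G) (n : ℕ) : ∀ h : n < 6, ∃ g, Reach nxG (elG s) (0 : Fin 6) ⟨n, h⟩ g := by
  induction n with
  | zero => intro h; exact ⟨1, (Reach.base : Reach nxG (elG s) (0 : Fin 6) 0 1)⟩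
  | succ n ih =>
    intro hn
    obtain ⟨g, hg⟩ := ih (by omega)
    have h := Reach.step (1 : Fin 2) _ _ hg
    refine ⟨g * elG s 1 ⟨n, by omega⟩, ?_⟩
    have e1 : nxG 1 (⟨n, by omega⟩ : Fin 6) = (⟨n + 1, hn⟩ : Fin 6) := by
      apply Fin.ext
      simp only [nxG]
      rw [if_neg (by decide)]
      rw [Fin.val_add]
      show (n + 1) % 6 = n + 1
      exact Nat.mod_eq_of_lt hn
    rw [← e1]
    exact h

/-- the system of the constraint `Comm α s` -/
def sysG (s : G) : Sys G where
  ι := Fin 6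
  fin := inferInstance
  big := by simp
  K := fun _ => ⊥
  nx := nxG
  el := elG s
  cond := by
    intro e i x hx
    rw [Subgroup.mem_bot] at hx ⊢
    subst hx
    group
  root := 0
  root_bot := rfl
  reach := by
    intro i
    exact reach_nat s i.1 i.2

theorem genR : GenR := by
  intro G _ _ s
  refine ⟨sysG s, ?_, ?_⟩
  · have hc : Nat.card (G ⧸ (⊥ : Subgroup G)) = Nat.card G := by
      have h := Subgroup.index_bot (G := G)
      rw [Subgroup.index] at h
      exact h
    have : Finite (G ⧸ (⊥ : Subgroup G)) := Quotient.finite _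
    have h : Nat.card (Σ _ : Fin 6, G ⧸ (⊥ : Subgroup G)) = 6 * Nat.card G := by
      rw [Nat.card_sigma]
      simp [hc]
    exact h.le
  · intro α hα k
    have h0 : Reach nxG (elG s) (0 : Fin 6) 0 1 := Reach.base
    have h1 : Reach nxG (elG s) (0 : Fin 6) 0 s := by
      have h := Reach.step (0 : Fin 2) _ _ h0
      have e1 : nxG 0 0 = 0 := by simp [nxG]
      have e2 : (1 : G) * elG s 0 0 = s := by simp [elG]
      rw [e2, e1] at h
      exact h
    have h := hα (0 : Fin 6) s 1 h1 h0 k (k * s) (by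
      show (k * s)⁻¹ * (k * s * 1) ∈ (⊥ : Subgroup G)
      rw [Subgroup.mem_bot]
      group)
    have h' : (α k * s)⁻¹ * (α (k * s) * 1) ∈ (⊥ : Subgroup G) := h
    rw [Subgroup.mem_bot, mul_one] at h'
    exact (inv_mul_eq_one.1 h').symm

end Pool.Agent.H104R3.EG.T_GenR
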