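import Pool.Agent.H104R3.EG.Stmts

set_option autoImplicit false

namespace Pool.Agent.H104R3.EG

theorem invR : InvR := by
  intro G _ _ α
  refine ⟨{ carrier := {x | Comm α x}, one_mem' := fun k => by simp, mul_mem' := ?_,
            inv_mem' := ?_ }, fun x => Iff.rfl⟩
  · intro a b ha hb k
    rw [← mul_assoc, hb, ha, mul_assoc]
  · intro x hx k
    have := hx (k * x⁻¹)
    rw [inv_mul_cancel_right] at this
    rw [this, mul_inv_cancel_right]

end Pool.Agent.H104R3.EG
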