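import Pool.Agent.H104R3.EG.Stmts

set_option autoImplicit false

/-! Project EG (MP_585e73_co), S3: minimal normal subgroups in sections. -/

namespace Pool.Agent.H104R3.EG.MinImgT

theorem minImgR : MinImgR := by
  intro G _ _ N K M _ hN hKM hNM hKN hL
  obtain ⟨hNn, hN0, hNmin⟩ := hN
  haveI := hNn
  set π := QuotientGroup.mk' (K.subgroupOf M) with hπ
  have hπs : Function.Surjective π := QuotientGroup.mk'_surjective _
  have hker : ∀ y : M, π y = 1 ↔ (y : G) ∈ K := by
    intro y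
    rw [hπ, QuotientGroup.mk'_apply, QuotientGroup.eq_one_iff, Subgroup.mem_subgroupOf]
  refine ⟨?_, ?_, ?_⟩
  · haveI : (N.subgroupOf M).Normal := inferInstance
    exact Subgroup.Normal.map this π hπs
  · intro h0
    apply hN0
    rw [Subgroup.eq_bot_iff_forall]
    intro x hx
    have h1 : π ⟨x, hNM hx⟩ ∈ (N.subgroupOf M).map π :=
      Subgroup.mem_map_of_mem π (Subgroup.mem_subgroupOf.2 hx)
    rw [h0, Subgroup.mem_bot, hker] at h1
    have h2 : x ∈ K ⊓ N := ⟨h1, hx⟩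
    rw [hKN, Subgroup.mem_bot] at h2
    exact h2
  · intro L' hL'n hL'
    set L : Subgroup G := ((L'.comap π) ⊓ N.subgroupOf M).map M.subtype with hLdef
    have hmem : ∀ y : M, (y : G) ∈ L ↔ π y ∈ L' ∧ (y : G) ∈ N := by
      intro y
      rw [hLdef, Subgroup.mem_map]
      constructor
      · rintro ⟨z, hz, hzy⟩
        have : z = y := Subtype.ext hzy
        subst this
        exact ⟨hz.1, Subgroup.mem_subgroupOf.1 hz.2⟩
      · rintro ⟨h1, h2⟩
        exact ⟨y, ⟨h1, Subgroup.mem_subgroupOf.2 h2⟩, rfl⟩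
    have hLM : ∀ x ∈ L, x ∈ M := by
      intro x hx
      rw [hLdef, Subgroup.mem_map] at hx
      obtain ⟨z, _, rfl⟩ := hx
      exact z.2
    have hLN : L ≤ N := by
      intro x hx
      exact ((hmem ⟨x, hLM x hx⟩).1 hx).2
    have hLnorm : L.Normal := by
      refine hL L hLN fun m hm x hx => ?_
      have h1 := (hmem ⟨x, hLM x hx⟩).1 hx
      have h2 : π (⟨m, hm⟩ * ⟨x, hLM x hx⟩ * ⟨m, hm⟩⁻¹) ∈ L' := by
        rw [map_mul, map_mul, map_inv]
        exact hL'n.conj_mem _ h1.1 _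
      have h3 : ((⟨m, hm⟩ * ⟨x, hLM x hx⟩ * ⟨m, hm⟩⁻¹ : M) : G) ∈ N := hNn.conj_mem _ h1.2 _
      exact (hmem _).2 ⟨h2, h3⟩
    rcases hNmin L hLnorm hLN with h0 | h0
    · left
      rw [Subgroup.eq_bot_iff_forall]
      intro z hz
      obtain ⟨y, hy, rfl⟩ := hL' hz
      have h1 : (y : G) ∈ L := (hmem y).2 ⟨hz, Subgroup.mem_subgroupOf.1 hy⟩
      rw [h0, Subgroup.mem_bot] at h1
      have : y = 1 := Subtype.ext h1
      rw [this, map_one]
    · right
      refine le_antisymm hL' ?_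
      rintro z ⟨y, hy, rfl⟩
      have h1 : (y : G) ∈ L := by
        rw [h0]
        exact Subgroup.mem_subgroupOf.1 hy
      exact ((hmem y).1 h1).1

end Pool.Agent.H104R3.EG.MinImgT
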