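import Pool.Agent.H104R3.EG.Stmts

set_option autoImplicit false

/-! Task MinPR: minimal normal subgroups of a finite solvable group are `p`-groups. -/

namespace Pool.Agent.H104R3.EG

theorem minPR : MinPR := by
  intro G _ _ _ N hN
  obtain ⟨hNn, hNb, hmin⟩ := hN
  have hcomm : ⁅N, N⁆ = (⊥ : Subgroup G) := by
    have h1 : ⁅N, N⁆ < N := Group.IsSolvable.commutator_lt_of_ne_bot hNb
    rcases hmin ⁅N, N⁆ inferInstance h1.le with h | h
    · exact h
    · exact absurd h h1.ne
  rw [Subgroup.commutator_eq_bot_iff_le_centralizer] at hcomm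
  have hc : ∀ x ∈ N, ∀ y ∈ N, x * y = y * x := by
    intro x hx y hy
    exact (Subgroup.mem_centralizer_iff.1 (hcomm hx) y hy).symm
  have hcard : Nat.card N ≠ 1 := by
    intro h
    exact hNb (Subgroup.card_eq_one.1 h)
  obtain ⟨p, hp, hpd⟩ := Nat.exists_prime_and_dvd hcard
  refine ⟨p, hp, ?_⟩
  haveI : Fact p.Prime := ⟨hp⟩
  let L : Subgroup G :=
    { carrier := {x | x ∈ N ∧ x ^ p = 1}
      one_mem' := ⟨N.one_mem, one_pow p⟩
      mul_mem' := by
        rintro a b ⟨ha, ha'⟩ ⟨hb, hb'⟩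
        refine ⟨N.mul_mem ha hb, ?_⟩
        have h : Commute a b := hc a ha b hb
        rw [h.mul_pow, ha', hb', one_mul]
      inv_mem' := by
        rintro a ⟨ha, ha'⟩
        exact ⟨N.inv_mem ha, by rw [inv_pow, ha', inv_one]⟩ }
  have hLN : L ≤ N := fun x hx => hx.1
  have hLn : L.Normal := by
    refine ⟨?_⟩
    rintro x ⟨hx, hx'⟩ g
    exact ⟨hNn.conj_mem x hx g, by rw [conj_pow, hx']; group⟩
  have hLb : L ≠ ⊥ := by
    obtain ⟨x, hx⟩ := exists_prime_orderOf_dvd_card' (G := N) p hpd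
    intro h
    have hx1 : (x : G) ∈ L := by
      refine ⟨x.2, ?_⟩
      have := pow_orderOf_eq_one x
      rw [hx] at this
      exact_mod_cast congrArg (fun t : N => (t : G)) this
    rw [h, Subgroup.mem_bot] at hx1
    have hx2 : x = 1 := Subtype.ext hx1
    rw [hx2, orderOf_one] at hx
    exact hp.one_lt.ne hx
  have hL : L = N := by
    rcases hmin L hLn hLN with h | h
    · exact absurd h hLb
    · exact h
  intro x
  refine ⟨1, ?_⟩
  have hx : (x : G) ∈ L := by rw [hL]; exact x.2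
  rw [pow_one]
  exact Subtype.ext hx.2

end Pool.Agent.H104R3.EG
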