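import Pool.Agent.H104R3.EG.Stmts

set_option autoImplicit false

namespace Pool.Agent.H104R3.EG

theorem taskPG : TaskPG := by
  intro hA hB hC p hp P _ _ hP N hN hcard
  obtain ⟨A, hNA, hmax⟩ := Set.Finite.exists_le_maximal
    (s := {A : Subgroup P | A.Normal ∧ (∀ x ∈ A, ∀ y ∈ A, x * y = y * x) ∧ N ≤ A})
    (Set.toFinite _) (a := Subgroup.center P)
    ⟨inferInstance, fun x hx y _ => ((Subgroup.mem_center_iff.1 hx) y).symm, hN⟩
  have hAn : A.Normal := hmax.prop.1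
  have hAc : ∀ x ∈ A, ∀ y ∈ A, x * y = y * x := hmax.prop.2.1
  have hNA' : N ≤ A := hmax.prop.2.2
  by_cases hcyc : IsCyclic A
  · right
    refine hC p hp P hP A hAn hcyc (hA p hp P hP A hAn hAc ?_)
    intro B hB1 hB2 hAB
    exact le_antisymm (hmax.le_of_ge ⟨hB1, hB2, hNA'.trans hAB⟩ hAB) hAB
  · left
    exact hB p hp P hP N hN hcard A hAn hAc hNA' hcyc

end Pool.Agent.H104R3.EG
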