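import Mathlib
import Pool.Agent.H104R3.EG.Stmts

set_option autoImplicit false

/-! Statement PGbR of project H104-EG (written by helper782). -/

namespace Pool.Agent.H104R3.EG.TPGb

open Pool.Agent.H104R3.EG

lemma card_tors {A : Type} [CommGroup A] [Fintype A] [DecidableEq A] (p : ℕ)
    (h : (Finset.univ.filter fun x : A => x ^ p = 1).card ≤ p) (k : ℕ) :
    (Finset.univ.filter fun x : A => x ^ (p ^ k) = 1).card ≤ p ^ k := by
  induction k with
  | zero =>
    simp only [pow_zero, pow_one]
    rw [Finset.filter_eq' Finset.univ (1 : A)]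
    simp
  | succ k ih =>
    have h1 := Finset.card_le_mul_card_image (f := fun x : A => x ^ p)
      (Finset.univ.filter fun x : A => x ^ (p ^ (k + 1)) = 1) p (by
        intro b hb
        obtain ⟨a0, ha0, rfl⟩ := Finset.mem_image.1 hb
        refine le_trans (Finset.card_le_card_of_injOn (fun a => a * a0⁻¹) ?_ ?_) h
        · intro a ha
          simp only [Finset.coe_filter, Finset.mem_filter, Finset.mem_univ, true_and] at ha ⊢
          show (a * a0⁻¹) ^ p = 1
          rw [mul_pow, inv_pow, ha.2, mul_inv_cancel]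
        · intro a _ b _ hab
          exact mul_right_cancel hab)
    have h2 : ((Finset.univ.filter fun x : A => x ^ (p ^ (k + 1)) = 1).image fun x : A => x ^ p).card ≤
        (Finset.univ.filter fun x : A => x ^ (p ^ k) = 1).card := by
      refine Finset.card_le_card ?_
      intro y hy
      obtain ⟨x, hx, rfl⟩ := Finset.mem_image.1 hy
      simp only [Finset.mem_filter, Finset.mem_univ, true_and] at hx ⊢
      rw [← pow_mul, mul_comm, ← pow_succ]
      exact hx
    calc _ ≤ p * _ := h1
      _ ≤ p * p ^ k := Nat.mul_le_mul_left _ (h2.trans ih)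
      _ = p ^ (k + 1) := by rw [pow_succ, mul_comm]

lemma cyc (A : Type) [CommGroup A] [Finite A] (p : ℕ) [hp : Fact p.Prime] (hA : IsPGroup p A)
    (h : Nat.card {x : A // x ^ p = 1} ≤ p) : IsCyclic A := by
  classical
  haveI := Fintype.ofFinite A
  obtain ⟨n, hn⟩ := IsPGroup.iff_card.1 hA
  have hdvd : Monoid.exponent A ∣ Nat.card A := Group.exponent_dvd_nat_card
  obtain ⟨m, -, hm⟩ := (Nat.dvd_prime_pow hp.out).1 (hn ▸ hdvd)
  have h' : (Finset.univ.filter fun x : A => x ^ p = 1).card ≤ p := by
    rw [← Fintype.card_subtype, ← Nat.card_eq_fintype_card]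
    exact h
  have h1 := card_tors p h' m
  have h2 : (Finset.univ.filter fun x : A => x ^ (p ^ m) = 1) = Finset.univ := by
    rw [Finset.filter_true_of_mem]
    intro x _
    rw [← hm]
    exact Monoid.pow_exponent_eq_one x
  rw [h2, Finset.card_univ, ← Nat.card_eq_fintype_card, ← hm] at h1
  rw [IsCyclic.iff_exponent_eq_card]
  exact le_antisymm (Nat.le_of_dvd Nat.card_pos hdvd) h1

theorem pGbR : PGbR := by
  intro p hp P _ _ hP N hN hNc A hA hcomm hNA hcyc
  haveI := Fact.mk hp
  have h1 : ∃ e0 ∈ A, e0 ^ p = 1 ∧ e0 ∉ N := by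
    by_contra hcon
    push Not at hcon
    apply hcyc
    letI : CommGroup A := { (inferInstance : Group A) with
      mul_comm := fun x y => Subtype.ext (hcomm x x.2 y y.2) }
    refine cyc A p (hP.to_subgroup A) ?_
    refine le_trans (Nat.card_le_card_of_injective
      (fun x => (⟨(x.1 : P), hcon _ x.1.2 ?_⟩ : N)) ?_) hNc.le
    · have := congrArg (Subtype.val : A → P) x.2
      simpa using this
    · intro x y hxy
      exact Subtype.ext (Subtype.ext (congrArg (Subtype.val : N → P) hxy))
  obtain ⟨e0, he0A, he0p, he0N⟩ := h1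
  have hnil : Group.IsNilpotent P := hP.isNilpotent
  obtain ⟨n, hn⟩ := hnil.nilpotent'
  classical
  have hex : ∃ k, ∃ e ∈ A, e ^ p = 1 ∧ e ∉ N ∧ e ∈ Subgroup.upperCentralSeries P k :=
    ⟨n, e0, he0A, he0p, he0N, by rw [hn]; trivial⟩
  obtain ⟨e, heA, hep, heN, hek⟩ := Nat.find_spec hex
  have hmin := fun m => Nat.find_min hex (m := m)
  generalize Nat.find hex = k at hek hmin
  have he1 : e ≠ 1 := by
    rintro rfl
    exact heN N.one_mem
  cases k with
  | zero =>
    exact absurd (by simpa using hek) he1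
  | succ k =>
    have hcN : ∀ g : P, g * e * g⁻¹ * e⁻¹ ∈ N := by
      intro g
      by_contra hc
      refine hmin k (Nat.lt_succ_self k) ⟨g * e * g⁻¹ * e⁻¹, ?_, ?_, hc, ?_⟩
      · exact A.mul_mem (hA.conj_mem e heA g) (A.inv_mem heA)
      · have hcm : Commute (g * e * g⁻¹) e⁻¹ := hcomm _ (hA.conj_mem e heA g) _ (A.inv_mem heA)
        rw [hcm.mul_pow, conj_pow, inv_pow, hep]
        simp
      · have h3 := (Subgroup.mem_upperCentralSeries_succ_iff.1 hek) g
        rw [commutatorElement_def] at h3
        have h4 := (Subgroup.upperCentralSeries P k).inv_mem h3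
        have e5 : (e * g * e⁻¹ * g⁻¹)⁻¹ = g * e * g⁻¹ * e⁻¹ := by group
        rwa [e5] at h4
    have hord : orderOf e = p := orderOf_eq_prime hep he1
    have hKc : Nat.card (Subgroup.zpowers e) = p := by rw [Nat.card_zpowers, hord]
    refine ⟨Subgroup.zpowers e, hKc, ?_, ?_⟩
    · haveI : Fact (Nat.card (Subgroup.zpowers e)).Prime := ⟨by rw [hKc]; exact hp⟩
      rcases (N.subgroupOf (Subgroup.zpowers e)).eq_bot_or_eq_top_of_prime_card with h | h
      · rw [Subgroup.subgroupOf_eq_bot] at h
        exact h.symm.eq_bot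
      · rw [Subgroup.subgroupOf_eq_top] at h
        exact absurd (h (Subgroup.mem_zpowers e)) heN
    · let φ : P →* N :=
        { toFun := fun g => ⟨g * e * g⁻¹ * e⁻¹, hcN g⟩
          map_one' := by
            apply Subtype.ext
            simp
          map_mul' := by
            intro g h
            apply Subtype.ext
            have hz := Subgroup.mem_center_iff.1 (hN (hcN h)) (g * e * g⁻¹ * e⁻¹)
            have hz2 := Subgroup.mem_center_iff.1 (hN (hcN h)) g
            show g * h * e * (g * h)⁻¹ * e⁻¹ = (g * e * g⁻¹ * e⁻¹) * (h * e * h⁻¹ * e⁻¹)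
            rw [hz]
            calc g * h * e * (g * h)⁻¹ * e⁻¹ = (g * (h * e * h⁻¹ * e⁻¹)) * e * g⁻¹ * e⁻¹ := by group
              _ = ((h * e * h⁻¹ * e⁻¹) * g) * e * g⁻¹ * e⁻¹ := by rw [hz2]
              _ = h * e * h⁻¹ * e⁻¹ * (g * e * g⁻¹ * e⁻¹) := by group }
      have hidx : φ.ker.index ∣ p := by
        rw [Subgroup.index_ker, ← hNc]
        exact Subgroup.card_subgroup_dvd_card _
      refine (Subgroup.index_dvd_of_le ?_).trans hidx
      intro g hg
      have h5 : g * e * g⁻¹ * e⁻¹ = 1 := congrArg (Subtype.val : N → P) (MonoidHom.mem_ker.1 hg)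
      have h6 : Commute g e := by
        have : g * e * g⁻¹ = e := mul_inv_eq_one.1 h5
        exact mul_inv_eq_iff_eq_mul.1 this
      have h7 : ∀ x ∈ Subgroup.zpowers e, Commute g x := by
        rintro x ⟨i, rfl⟩
        exact h6.zpow_right i
      rw [Subgroup.mem_normalizer_iff]
      intro x
      constructor
      · intro hx
        rw [(h7 x hx).eq, mul_inv_cancel_right]
        exact hx
      · intro hx
        have h8 := h7 _ hx
        have h9 : x = g * x * g⁻¹ := by
          have h10 : g * (g * x * g⁻¹) = g * x * g⁻¹ * g := h8.eq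
          have h11 : g * (g * x * g⁻¹) = g * x := by rw [h10]; group
          exact (mul_left_cancel h11).symm
        rw [h9]
        exact hx

end Pool.Agent.H104R3.EG.TPGb
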