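import Pool.Agent.H104R3.EG.Stmts

set_option autoImplicit false

/-! Project EG, task PMinR: minimal normal subgroups of a finite `p`-group are central of
order `p`. -/

namespace Pool.Agent.H104R3.EG

theorem pMinR : PMinR := by
  intro p hp P _ _ hP N hN
  haveI : Fact p.Prime := ⟨hp⟩
  obtain ⟨hNn, hNb, hmin⟩ := hN
  haveI := hNn
  -- conjugation action of `P` on `N`
  letI act : MulAction P N := MulAction.compHom N (MulAut.conjNormal (H := N))
  have hact : ∀ (g : P) (x : N), ((g • x : N) : P) = g * x * g⁻¹ := fun g x => by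
    change ((MulAut.conjNormal g x : N) : P) = _
    exact MulAut.conjNormal_apply g x
  have hNp : IsPGroup p N := hP.to_subgroup N
  have hnt : Nontrivial N := (Subgroup.nontrivial_iff_ne_bot N).mpr hNb
  have hdvd : p ∣ Nat.card N := by
    rcases hNp.card_eq_or_dvd with h | h
    · exfalso
      have := Finite.one_lt_card (α := N)
      omega
    · exact h
  have h1 : (1 : N) ∈ MulAction.fixedPoints P N := by
    intro g
    apply Subtype.ext
    rw [hact]
    simp
  obtain ⟨z, hz, hz1⟩ := hP.exists_fixed_point_of_prime_dvd_card_of_fixed_point N hdvd h1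
  have hzc : (z : P) ∈ Subgroup.center P := by
    rw [Subgroup.mem_center_iff]
    intro g
    have h := congrArg (fun x : N => (x : P)) (hz g)
    simp only [hact] at h
    exact mul_inv_eq_iff_eq_mul.mp h
  -- an element of order `p` in the center
  have hz0 : z ≠ 1 := fun h => hz1 h.symm
  obtain ⟨k, hk⟩ := (IsPGroup.iff_orderOf.mp hNp) z
  have hkpos : 0 < k := by
    rcases Nat.eq_zero_or_pos k with h | h
    · exfalso
      apply hz0
      rw [h, pow_zero] at hk
      exact orderOf_eq_one_iff.mp hk
    · exact h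
  set w : P := (z : P) ^ (p ^ (k - 1)) with hw
  have hzo : orderOf (z : P) = p ^ k := by
    rw [← hk]
    exact Subgroup.orderOf_coe z
  have hwo : orderOf w = p := by
    have hdiv : p ^ (k - 1) ∣ orderOf (z : P) := by
      rw [hzo]
      exact pow_dvd_pow p (Nat.sub_le k 1)
    rw [hw, orderOf_pow_of_dvd (pow_ne_zero _ hp.ne_zero) hdiv, hzo]
    have h2 : p ^ k = p * p ^ (k - 1) := by
      rw [← pow_succ']
      congr 1
      omega
    rw [h2, Nat.mul_div_cancel _ (pow_pos hp.pos _)]
  have hwc : w ∈ Subgroup.center P := Subgroup.pow_mem _ hzc _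
  have hwN : w ∈ N := Subgroup.pow_mem _ z.2 _
  have hle : Subgroup.zpowers w ≤ Subgroup.center P := by
    rw [Subgroup.zpowers_le]
    exact hwc
  have hleN : Subgroup.zpowers w ≤ N := by
    rw [Subgroup.zpowers_le]
    exact hwN
  have hnorm : (Subgroup.zpowers w).Normal := by
    constructor
    intro n hn g
    have h3 := hle hn
    rw [Subgroup.mem_center_iff] at h3
    rw [h3 g, mul_inv_cancel_right]
    exact hn
  rcases hmin _ hnorm hleN with h | h
  · exfalso
    rw [Subgroup.zpowers_eq_bot] at h
    rw [h, orderOf_one] at hwo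
    exact hp.one_lt.ne hwo
  · refine ⟨h ▸ hle, ?_⟩
    rw [← h, Nat.card_zpowers, hwo]

end Pool.Agent.H104R3.EG
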