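import Pool.Agent.H104R3.EG.Stmts

set_option autoImplicit false

/-! Task QuotR (A3) of the project EG: systems of a quotient group. -/

namespace Pool.Agent.H104R3.EG.T_QuotR

open Pool.Agent.H104R3.EG

section

variable {G : Type} [Group G] (N : Subgroup G) [N.Normal] (S : Sys (G ⧸ N))

/-- the self maps on nodes -/
def nx (e : Fin 2) : Option S.ι → Option S.ι
  | none => some S.root
  | some i => some (S.nx e i)

/-- a lift of a coset -/
noncomputable def lft (x : G ⧸ N) : G := Quotient.out x

theorem mk_lft (x : G ⧸ N) : ((lft N x : G) : G ⧸ N) = x := Quotient.out_eq' x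

/-- the labels -/
noncomputable def el (e : Fin 2) : Option S.ι → G
  | none => 1
  | some i => lft N (S.el e i)

/-- the stabilizers -/
def KK : Option S.ι → Subgroup G
  | none => ⊥
  | some i => (S.K i).comap (QuotientGroup.mk' N)

theorem mem_KK_some (i : S.ι) (x : G) : x ∈ KK N S (some i) ↔ (x : G ⧸ N) ∈ S.K i := Iff.rfl

theorem lift_reach {i : S.ι} {q : G ⧸ N} (h : Reach S.nx S.el S.root i q) :
    ∃ g : G, (g : G ⧸ N) = q ∧ Reach (nx N S) (el N S) none (some i) g := by
  induction h with
  | base =>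
    refine ⟨1 * 1, by simp, ?_⟩
    exact Reach.step (nx := nx N S) (el := el N S) (root := none) 0 none 1 Reach.base
  | step e i q _ ih =>
    obtain ⟨g, hg, hr⟩ := ih
    refine ⟨g * lft N (S.el e i), ?_, ?_⟩
    · rw [QuotientGroup.mk_mul, hg, mk_lft]
    · exact Reach.step (nx := nx N S) (el := el N S) (root := none) e (some i) g hr

/-- the lifted system -/
noncomputable def lsys : Sys G where
  ι := Option S.ι
  fin := by
    have := S.fin
    infer_instance
  big := by
    have := S.fin
    have h := S.big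
    have : Nat.card (Option S.ι) = Nat.card S.ι + 1 := Finite.card_option
    omega
  K := KK N S
  nx := nx N S
  el := el N S
  cond := by
    intro e i x hx
    cases i with
    | none =>
      have hx1 : x = 1 := Subgroup.mem_bot.mp hx
      subst hx1
      have : (el N S e none)⁻¹ * 1 * el N S e none = 1 := by group
      rw [this]
      exact Subgroup.one_mem _
    | some i =>
      have h1 := S.cond e i (x : G ⧸ N) hx
      show (((lft N (S.el e i))⁻¹ * x * lft N (S.el e i) : G) : G ⧸ N) ∈ S.K (S.nx e i)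
      rw [QuotientGroup.mk_mul, QuotientGroup.mk_mul, QuotientGroup.mk_inv, mk_lft]
      exact h1
  root := none
  root_bot := rfl
  reach := by
    intro i
    cases i with
    | none => exact ⟨1, Reach.base⟩
    | some i =>
      obtain ⟨q, hq⟩ := S.reach i
      obtain ⟨g, -, hg⟩ := lift_reach N S hq
      exact ⟨g, hg⟩

theorem card_lsys [Finite G] :
    Nat.card (Σ i, G ⧸ (lsys N S).K i) = Nat.card G + Nat.card (Σ i, (G ⧸ N) ⧸ S.K i) := by
  have hf := S.fin
  have := Fintype.ofFinite S.ι
  have e1 : Nat.card (Σ i, (G ⧸ N) ⧸ S.K i) = ∑ i, Nat.card ((G ⧸ N) ⧸ S.K i) :=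
    Nat.card_sigma
  have e2 : Nat.card (Σ i : Option S.ι, G ⧸ KK N S i) = ∑ i, Nat.card (G ⧸ KK N S i) :=
    Nat.card_sigma
  show Nat.card (Σ i : Option S.ι, G ⧸ KK N S i) = _
  rw [e1, e2, Fintype.sum_option]
  congr 1
  · show (⊥ : Subgroup G).index = _
    rw [Subgroup.index_bot]
  · refine Finset.sum_congr rfl fun i _ => ?_
    show ((S.K i).comap (QuotientGroup.mk' N)).index = (S.K i).index
    exact Subgroup.index_comap_of_surjective _ (QuotientGroup.mk'_surjective N)

end

theorem quotR : QuotR := by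
  intro G _ _ N _ n P hP
  obtain ⟨S, hS, hA⟩ := hP
  refine ⟨lsys N S, ?_, ?_⟩
  · rw [card_lsys]; omega
  · intro α hα
    have hα' : ∀ (i : S.ι) (g g' : G), Reach (nx N S) (el N S) none (some i) g →
        Reach (nx N S) (el N S) none (some i) g' → ∀ k k' : G,
        (((k * g)⁻¹ * (k' * g') : G) : G ⧸ N) ∈ S.K i →
        (((α k * g)⁻¹ * (α k' * g') : G) : G ⧸ N) ∈ S.K i :=
      fun i g g' h h' k k' hk => hα (some i) g g' h h' k k' hk
    have hwd : ∀ k k' : G, (k : G ⧸ N) = (k' : G ⧸ N) →
        ((α k : G) : G ⧸ N) = ((α k' : G) : G ⧸ N) := by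
      intro k k' hk
      obtain ⟨g, hg, hr⟩ := lift_reach N S (Reach.base (nx := S.nx) (el := S.el) (root := S.root))
      have h1 := hα' S.root g g hr hr k k' (by
        rw [S.root_bot, Subgroup.mem_bot]
        simp only [QuotientGroup.mk_mul, QuotientGroup.mk_inv, hg, mul_one]
        rw [hk, inv_mul_cancel])
      rw [S.root_bot, Subgroup.mem_bot] at h1
      simp only [QuotientGroup.mk_mul, QuotientGroup.mk_inv, hg, mul_one] at h1
      exact inv_mul_eq_one.mp h1
    have hβ : ∀ k : G, ((α (lft N (k : G ⧸ N)) : G) : G ⧸ N) = ((α k : G) : G ⧸ N) :=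
      fun k => hwd _ _ (mk_lft N _)
    refine ⟨fun q => ((α (lft N q) : G) : G ⧸ N), ?_, fun k => hβ k⟩
    apply hA
    intro i q q' hq hq' k k' hk
    obtain ⟨g, rfl, hr⟩ := lift_reach N S hq
    obtain ⟨g', rfl, hr'⟩ := lift_reach N S hq'
    have h1 := hα' i g g' hr hr' (lft N k) (lft N k') (by
      simp only [QuotientGroup.mk_mul, QuotientGroup.mk_inv, mk_lft]
      exact hk)
    simp only [QuotientGroup.mk_mul, QuotientGroup.mk_inv] at h1
    exact h1

end Pool.Agent.H104R3.EG.T_QuotR
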