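import Pool.Agent.H104R3.EG.Stmts

set_option autoImplicit false

namespace Pool.Agent.H104R3.EG

theorem Real.weaken {G : Type} [Group G] {m n : ℕ} {P Q : (G → G) → Prop} (h : Real G m P)
    (hmn : m ≤ n) (hPQ : ∀ α, P α → Q α) : Real G n Q := by
  obtain ⟨S, h1, h2⟩ := h
  exact ⟨S, h1.trans hmn, fun α hα => hPQ α (h2 α hα)⟩

theorem taskSect : TaskSect := by
  intro hQ hI G _ _ N K M _ _ n hKM hKN hInc
  have h1 := hQ M (K.subgroupOf M) n _ hInc
  have h2 := hI G M _ _ h1
  refine Real.weaken h2 ?_ ?_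
  · have hc : M.index * Nat.card M = Nat.card G := by
      rw [mul_comm]; exact Subgroup.card_mul_index M
    have hpos : 0 < Nat.card M := Nat.card_pos
    have hi : M.index ≤ Nat.card G := by
      rw [← hc]; exact Nat.le_mul_of_pos_right _ hpos
    rw [mul_add, hc]
    omega
  · intro α hα hmod x hx k
    obtain ⟨β, ⟨bb, hbb, hbβ⟩, hβ⟩ := hα k
    have hb1 : β 1 = 1 := by
      have := hβ 1
      simp only [OneMemClass.coe_one, mul_one] at this
      have h3 : (β 1 : G) = 1 := by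
        have h4 : α k * 1 = α k * (β 1 : G) := by rw [mul_one]; exact this
        exact (mul_left_cancel h4).symm
      exact_mod_cast h3
    have hkey : ∀ k0 x0 : M, ∃ y : M, (y : G) ∈ N ∧ β (k0 * x0) = β k0 * x0 * y := by
      intro k0 x0
      obtain ⟨y, hy, hy2⟩ := hmod (k * k0) x0
      have e1 := hβ (k0 * x0)
      have e2 := hβ k0
      have e3 : α k * ((β (k0 * x0) : M) : G) = α k * ((β k0 : G) * x0 * y) := by
        rw [← e1]
        have : k * ((k0 * x0 : M) : G) = k * k0 * x0 := by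
          rw [Subgroup.coe_mul]; group
        rw [this, hy2, e2]; group
      have e4 : ((β (k0 * x0) : M) : G) = (β k0 : G) * x0 * y := mul_left_cancel e3
      refine ⟨(β k0 * x0)⁻¹ * β (k0 * x0), ?_, by group⟩
      have : (((β k0 * x0)⁻¹ * β (k0 * x0) : M) : G) = y := by
        rw [Subgroup.coe_mul, e4, Subgroup.coe_inv, Subgroup.coe_mul]; group
      rw [this]; exact hy
    have hmod' : ModN ((N.subgroupOf M).map (QuotientGroup.mk' (K.subgroupOf M))) bb := by
      intro kb xb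
      obtain ⟨k0, rfl⟩ := QuotientGroup.mk_surjective kb
      obtain ⟨x0, rfl⟩ := QuotientGroup.mk_surjective xb
      obtain ⟨y, hy, hy2⟩ := hkey k0 x0
      refine ⟨(y : M ⧸ K.subgroupOf M), ?_, ?_⟩
      · exact Subgroup.mem_map.mpr ⟨y, Subgroup.mem_subgroupOf.mpr hy, rfl⟩
      · rw [← QuotientGroup.mk_mul, hbβ, hy2, hbβ]
        simp
    have hcomm := hbb hmod' ((⟨x, hx⟩ : M) : M ⧸ K.subgroupOf M) ((1 : M) : M ⧸ K.subgroupOf M)
    rw [← QuotientGroup.mk_mul, hbβ, hbβ, hb1, one_mul, QuotientGroup.mk_one, one_mul] at hcomm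
    have hK : (⟨x, hx⟩ : M)⁻¹ * β ⟨x, hx⟩ ∈ K.subgroupOf M := by
      rw [← QuotientGroup.eq]; exact hcomm.symm
    obtain ⟨y, hy, hy2⟩ := hmod k x
    have e1 := hβ ⟨x, hx⟩
    have e2 : ((β ⟨x, hx⟩ : M) : G) = x * y := by
      have : α k * ((β ⟨x, hx⟩ : M) : G) = α k * (x * y) := by
        rw [← e1, hy2]; group
      exact mul_left_cancel this
    have e3 : y ∈ K := by
      have := Subgroup.mem_subgroupOf.mp hK
      rw [Subgroup.coe_mul, e2, Subgroup.coe_inv] at this
      simpa using this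
    have e4 : y ∈ K ⊓ N := ⟨e3, hy⟩
    rw [hKN, Subgroup.mem_bot] at e4
    rw [hy2, e4, mul_one]

end Pool.Agent.H104R3.EG
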