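import Pool.Agent.H104R3.EG.Stmts

set_option autoImplicit false

/-! Project EG, task SolvRig. -/

namespace Pool.Agent.H104R3.EG

namespace SolvRigAux

theorem real_mono {G : Type} [Group G] {m n : ℕ} {P Q : (G → G) → Prop} (h : Real G m P)
    (hmn : m ≤ n) (hPQ : ∀ α, P α → Q α) : Real G n Q := by
  obtain ⟨S, h1, h2⟩ := h
  exact ⟨S, h1.trans hmn, fun α hα => hPQ α (h2 α hα)⟩

theorem exists_minNormal (G : Type) [Group G] [Finite G] [Nontrivial G] :
    ∃ N : Subgroup G, MinNormal N := by
  have hfin : ({L : Subgroup G | L.Normal ∧ L ≠ ⊥}).Finite := Set.toFinite _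
  have hne : ({L : Subgroup G | L.Normal ∧ L ≠ ⊥}).Nonempty :=
    ⟨⊤, inferInstance, top_ne_bot⟩
  obtain ⟨N, hN⟩ := hfin.exists_minimal hne
  refine ⟨N, hN.1.1, hN.1.2, fun L hL hLN => ?_⟩
  by_cases hb : L = ⊥
  · exact Or.inl hb
  · exact Or.inr (le_antisymm hLN (hN.2 ⟨hL, hb⟩ hLN))

theorem core (hGen : GenR) (hExt : ExtR) (hMin : MinPR) (hInc : SolvIncR) (n : ℕ) :
    ∀ (G : Type) [Group G] [Finite G] [Group.IsSolvable G], Nat.card G = n →
      Rig G (204 * Nat.card G) := by
  induction n using Nat.strong_induction_on with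
  | _ n ih =>
    intro G _ _ _ hcard
    rcases subsingleton_or_nontrivial G with hs | hn
    · refine real_mono (hGen G 1) (Nat.mul_le_mul_right _ (by norm_num)) fun α hα x => ?_
      rw [Subsingleton.elim x 1]
      exact hα
    · obtain ⟨N, hN⟩ := exists_minNormal G
      obtain ⟨p, hp, hpN⟩ := hMin G N hN
      have hI := hInc G p hp N hN hpN
      have : N.Normal := hN.1
      have hc : Nat.card G = Nat.card (G ⧸ N) * Nat.card N :=
        Subgroup.card_eq_card_quotient_mul_card_subgroup N
      have hN2 : 1 < Nat.card N := (Subgroup.one_lt_card_iff_ne_bot N).mpr hN.2.1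
      have hpos : 0 < Nat.card (G ⧸ N) := Nat.card_pos
      have hlt : Nat.card (G ⧸ N) < n := by
        rw [← hcard, hc]
        nlinarith
      have hq := ih _ hlt (G ⧸ N) rfl
      have hE := hExt G N _ _ hq hI
      refine real_mono hE ?_ fun α hα => hα
      have h2 : 2 * Nat.card (G ⧸ N) ≤ Nat.card G := by
        rw [hc]
        nlinarith
      omega

end SolvRigAux

theorem taskSolvRig : TaskSolvRig := fun hGen hExt hMin hInc G _ _ _ =>
  SolvRigAux.core hGen hExt hMin hInc (Nat.card G) G rfl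

end Pool.Agent.H104R3.EG
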