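import Pool.Agent.H104R3.EG.Stmts

set_option autoImplicit false

namespace Pool.Agent.H104R3.EG

theorem taskAvoid : TaskAvoid := by
  intro hsect hgen G _ _ N M _ hMN
  haveI hn : (M.subgroupOf M).Normal := by
    rw [Subgroup.subgroupOf_self]; infer_instance
  have hss : Subsingleton (M ⧸ M.subgroupOf M) := by
    rw [Subgroup.subgroupOf_self]
    exact QuotientGroup.subsingleton_quotient_top
  have hcard : Nat.card (M ⧸ M.subgroupOf M) = 1 := by
    haveI := hss
    exact Nat.card_of_subsingleton 1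
  have hinc : Inc (M ⧸ M.subgroupOf M)
      ((N.subgroupOf M).map (QuotientGroup.mk' (M.subgroupOf M))) 6 := by
    obtain ⟨S, hS, hα⟩ := hgen (M ⧸ M.subgroupOf M) 1
    refine ⟨S, ?_, fun α _ _ x k => Subsingleton.elim _ _⟩
    rw [hcard] at hS
    simpa using hS
  obtain ⟨S, hS, hα⟩ := hsect G N M M 6 le_rfl hMN hinc
  refine ⟨S, le_trans hS ?_, hα⟩
  have h1 : M.index ≤ Nat.card G :=
    Nat.le_of_dvd Nat.card_pos (Subgroup.index_dvd_card M)
  omega

end Pool.Agent.H104R3.EG
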