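import Pool.Agent.H104R3.EG.Stmts

set_option autoImplicit false

/-! # TaskSub of project H104-EG (MP_585e73_co) -/

namespace Pool.Agent.H104R3.EG

theorem taskSub : TaskSub := by
  intro hI G _ _ H n hH
  obtain ⟨S, hS, hP⟩ := hI G H n (fun α => ∀ x, Comm α x) hH
  refine ⟨S, hS, fun α hα x hx k => ?_⟩
  obtain ⟨β, hβ, h1⟩ := hP α hα k
  have e1 : ((β 1 : H) : G) = 1 := by
    have h2 := h1 1
    rw [Subgroup.coe_one, mul_one] at h2
    exact (mul_eq_left.1 h2.symm)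
  have e2 : β ⟨x, hx⟩ = β 1 * ⟨x, hx⟩ := by
    have h3 := hβ ⟨x, hx⟩ 1
    rwa [one_mul] at h3
  have h4 := h1 ⟨x, hx⟩
  rw [e2, Subgroup.coe_mul, e1, one_mul] at h4
  exact h4

end Pool.Agent.H104R3.EG
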