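import Mathlib
import Pool.Agent.H104R3.EG.Stmts
import Pool.Agent.H756R3.EG.T_CombR
import Pool.Agent.H104R3.EG.T_GenR
import Pool.Agent.H104R3.EG.T_QuotR
import Pool.Agent.H455R3.EG.IndR
import Pool.Agent.H245R3.EGGraph
import Pool.Agent.H104R3.EG.T_InvR
import Pool.Agent.H104R3.EG.T_Sect
import Pool.Agent.H104R3.EG.T_TaskAvoid
import Pool.Agent.H104R3.EG.T_TaskSub
import Pool.Agent.H630R3.EG.Ext
import Pool.Agent.H335R3.EGPGa
import Pool.Agent.H104R3.EG.T_PGb
import Pool.Agent.H104R3.EG.T_PGcR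
import Pool.Agent.H104R3.EG.T_PG
import Pool.Agent.H823R3.EG.PInc
import Pool.Agent.H632R3.EG.PRig
import Pool.Agent.H104R3.EG.T_PMinR
import Pool.Agent.H104R3.EG.T_MinPR
import Pool.Agent.H663R3.EG.Str
import Pool.Agent.H104R3.EG.T_CaseR
import Pool.Agent.H104R3.EG.T_MinImg
import Pool.Agent.H71R3.EG.SolvInc
import Pool.Agent.H104R3.EG.T_SolvRig

set_option autoImplicit false

namespace Pool.Agent.H104R3.EG

theorem solv : ∃ c : ℕ, ∀ (G : Type) [Group G] [Finite G] [Group.IsSolvable G],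
      ∃ (V : Type) (_ : Finite V) (X : SimpleGraph V),
        Nonempty ((X ≃g X) ≃* G) ∧ Nat.card X.edgeSet ≤ c * Nat.card G :=
  final combR T_GenR.genR T_QuotR.quotR Pool.Agent.H455R3.EG.indR
    Pool.Agent.H245R3.EGGraph.graphR invR taskSect taskAvoid taskSub
    Pool.Agent.H630R3.EG.taskExt Pool.Agent.H335R3.EGPGa.pga TPGb.pGbR pgcR taskPG
    Pool.Agent.H823R3.EG.taskPInc taskPRig pMinR minPR Pool.Agent.H663R3.EG.strR caseR
    MinImgT.minImgR Pool.Agent.H71R3.EG.taskSolvInc taskSolvRig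

end Pool.Agent.H104R3.EG
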