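import Mathlib
import Pool.Agent.H104R3.EG.Stmts

set_option autoImplicit false

/-! Project EG (MP_585e73_co), second stage: groups all of whose nonabelian simple sections are
generated by `s` elements (by the classification every finite group, with `s = 2`). -/

namespace Pool.Agent.H104R3.EG

/-- every nonabelian simple section of `G` is generated by `s` elements -/
def SecGen (s : ℕ) (G : Type) [Group G] : Prop :=
  ∀ (A : Subgroup G) (B : Subgroup A) [B.Normal], IsSimpleGroup (A ⧸ B) →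
    (∃ x y : A ⧸ B, x * y ≠ y * x) → ∃ x : Fin s → A ⧸ B, Subgroup.closure (Set.range x) = ⊤

/-- `X` is not abelian -/
def NonAb {G : Type} [Group G] (X : Subgroup G) : Prop := ∃ x ∈ X, ∃ y ∈ X, x * y ≠ y * x

/-- the conjugate `g T g⁻¹` -/
def cj {G : Type} [Group G] (g : G) (T : Subgroup G) : Subgroup G :=
  T.map (MulAut.conj g).toMonoidHom

/-- `X` is the product of the pairwise commuting conjugates `T i = g i T0 (g i)⁻¹` of the
nonabelian simple group `T0`, and `G` permutes these conjugates. -/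
structure Dec {G : Type} [Group G] (X : Subgroup G) (k : ℕ) (T : Fin k → Subgroup G)
    (g : Fin k → G) (T0 : Subgroup G) : Prop where
  simple : IsSimpleGroup T0
  nonab : NonAb T0
  conj : ∀ i, T i = cj (g i) T0
  comm : ∀ i j, i ≠ j → ∀ x ∈ T i, ∀ y ∈ T j, x * y = y * x
  sup : (⨆ i, T i) = X
  perm : ∀ h i, ∃ j, cj h (T i) = T j
  one : ∃ i, g i = 1

/-! ### Sections -/

/-- G1 -/
def SecSubR : Prop := ∀ (s : ℕ) (G : Type) [Group G] [Finite G], SecGen s G →
  ∀ H : Subgroup G, SecGen s H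

/-- G2 -/
def SecQuotR : Prop := ∀ (s : ℕ) (G : Type) [Group G] [Finite G], SecGen s G →
  ∀ (N : Subgroup G) [N.Normal], SecGen s (G ⧸ N)

/-- G3 -/
def SecSimpR : Prop := ∀ (s : ℕ) (G : Type) [Group G] [Finite G], SecGen s G →
  ∀ T : Subgroup G, IsSimpleGroup T → NonAb T →
  ∃ x : Fin s → G, Subgroup.closure (Set.range x) = T

/-! ### Minimal normal subgroups -/

/-- G4: nonabelian minimal normal subgroups are products of simple groups. -/
def DecR : Prop := ∀ (G : Type) [Group G] [Finite G] (X : Subgroup G), MinNormal X → NonAb X →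
  ∃ (k : ℕ) (T : Fin k → Subgroup G) (g : Fin k → G) (T0 : Subgroup G), Dec X k T g T0

/-- G5: generation of a nonabelian minimal normal subgroup by a Sylow subgroup and few elements. -/
def DiagR : Prop := ∀ (s : ℕ) (G : Type) [Group G] [Finite G] (X : Subgroup G) (r : ℕ)
  (_ : r.Prime) (Q : Sylow r X), MinNormal X → NonAb X → SecGen s G → (Q : Subgroup X) ≠ ⊥ →
  ∃ x : Fin s → G, (∀ i, x i ∈ X) ∧
    X ≤ (Q : Subgroup X).map X.subtype ⊔ Subgroup.closure (Set.range x)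

/-- G6: abelian minimal normal subgroups are `p`-groups. -/
def MinPGR : Prop := ∀ (G : Type) [Group G] [Finite G] (N : Subgroup G),
  MinNormal N → ¬ NonAb N → ∃ p : ℕ, p.Prime ∧ IsPGroup p N

/-- G7: structure. -/
def StrGR : Prop := ∀ (s : ℕ) (G : Type) [Group G] [Finite G], SecGen s G →
  ∀ (p : ℕ) (_ : p.Prime) (N : Subgroup G), MinNormal N → IsPGroup p N →
  (∀ W : Subgroup G, W.Normal → W ⊓ N = ⊥ → W = ⊥) → ¬ IsPGroup p G →
  ∃ P Q : Subgroup G, IsPGroup p P ∧ (∀ x ∈ N, ∀ y ∈ P, x * y = y * x) ∧ Q ≠ ⊥ ∧ Q ⊓ N = ⊥ ∧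
    (P ⊔ Subgroup.normalizer (Q : Set G) = ⊤ ∨
      (3 ≤ Nat.card Q ∧ ∃ x : Fin s → G,
        P ⊔ Subgroup.normalizer (Q : Set G) ⊔ Subgroup.closure (Set.range x) = ⊤))

/-! ### Calculus -/

/-- G8: chains. -/
def ChainR : Prop := ∀ (G : Type) [Group G] [Finite G] (L : Subgroup G) (k : ℕ)
  (D : ℕ → Subgroup G) (g : ℕ → G), (∀ j, D (j + 1) ≤ D j) →
  (∀ j < k, ∀ x ∈ D j, (g j)⁻¹ * x * g j ∈ L) →
  (∀ j < k, 2 ^ (k - 1 - j) ≤ Nat.card (D j)) →
  Real G (10 * Nat.card G) (fun α => ∀ j < k, ∀ x, ∃ y ∈ L, α (x * g j) = α x * g j * y)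

/-- G9 -/
def CoreR : Prop := ∀ (G : Type) [Group G] [Finite G] (L : Subgroup G) (α : G → G),
  (∀ x : G, (∀ h : G, h⁻¹ * x * h ∈ L) → x = 1) → ModN L α → ∀ x, Comm α x

/-- G10: sections `M / K` with a rigid system. -/
def SectRigR : Prop :=
  ∀ (G : Type) [Group G] [Finite G] (K M : Subgroup G) [(K.subgroupOf M).Normal] (n : ℕ),
    K ≤ M → Rig (M ⧸ K.subgroupOf M) n →
    Real G (3 * Nat.card G + M.index * n) (fun α => ∀ x ∈ M, ∀ k, ∃ y ∈ K, α (k * x) = α k * x * y)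

/-- G11: generators. -/
def GensR : Prop := ∀ (G : Type) [Group G] [Finite G] (s : ℕ) (x : Fin s → G),
  Real G ((6 + 7 * s) * Nat.card G) (fun α => ∀ i, Comm α (x i))

/-! ### Rigid systems -/

/-- G12: minimal normal subgroup with at least two simple factors. -/
def RigNA2R : Prop := ∀ (G : Type) [Group G] [Finite G] (X : Subgroup G) (k : ℕ)
  (T : Fin k → Subgroup G) (g : Fin k → G) (T0 : Subgroup G) (c : ℕ), MinNormal X → 2 ≤ k →
  Dec X k T g T0 →
  (∀ (M : Subgroup G) (K : Subgroup M) [K.Normal], K ≠ ⊥ → Rig (M ⧸ K) (c * Nat.card (M ⧸ K))) →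
  ∃ n : ℕ, Rig G n ∧ 2 * n ≤ (28 + c) * Nat.card G

/-- G13: simple minimal normal subgroup. -/
def RigNA1R : Prop := ∀ (s : ℕ) (G : Type) [Group G] [Finite G] (X : Subgroup G) (c : ℕ),
  MinNormal X → IsSimpleGroup X → NonAb X → SecGen s G →
  (∀ (M : Subgroup G) (K : Subgroup M) [K.Normal], K ≠ ⊥ → Rig (M ⧸ K) (c * Nat.card (M ⧸ K))) →
  ∃ n : ℕ, Rig G n ∧ 2 * n ≤ (20 + 14 * s + c) * Nat.card G

/-- G14: the step for abelian minimal normal subgroups. -/
def IncGR : Prop := ∀ (s : ℕ) (G : Type) [Group G] [Finite G], SecGen s G →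
  (∀ (M : Subgroup G) (K : Subgroup M) [K.Normal], K ≠ ⊥ →
    Rig (M ⧸ K) ((360 + 42 * s) * Nat.card (M ⧸ K)) ∧
    ∀ (p : ℕ) (_ : p.Prime) (N : Subgroup (M ⧸ K)), MinNormal N → IsPGroup p N →
      Inc (M ⧸ K) N ((178 + 21 * s) * Nat.card (M ⧸ K))) →
  ∀ (p : ℕ) (_ : p.Prime) (N : Subgroup G), MinNormal N → IsPGroup p N →
    Inc G N ((178 + 21 * s) * Nat.card G)

/-- G15: main induction. -/
def MainR : Prop := ∀ (s : ℕ) (G : Type) [Group G] [Finite G], SecGen s G →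
  Rig G ((360 + 42 * s) * Nat.card G)

/-! ### Tasks with hypotheses -/

def TaskDiag : Prop := SecSimpR → DecR → DiagR
def TaskStrG : Prop := SecQuotR → MinPGR → DiagR → StrGR
def TaskSectRig : Prop := QuotR → IndR → SectRigR
def TaskGens : Prop := CombR → GenR → GensR
def TaskRigNA2 : Prop := CombR → ChainR → CoreR → SectRigR → RigNA2R
def TaskRigNA1 : Prop := CombR → InvR → GensR → SecSimpR → SectRigR → RigNA1R
def TaskIncG : Prop := CombR → InvR → SectR → AvoidR → SubR → GensR → SectRigR → PIncR → PRigR →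
  PMinR → StrGR → CaseR → MinImgR → IncGR
def TaskMain : Prop := GenR → ExtR → SecSubR → SecQuotR → MinPGR → DecR → RigNA2R → RigNA1R →
  IncGR → MainR

theorem finalG (a1 : CombR) (a2 : GenR) (a3 : QuotR) (a4 : IndR) (a5 : GraphR) (b0 : InvR)
    (t1 : TaskSect) (t2 : TaskAvoid) (t3 : TaskSub) (t4 : TaskExt) (p1 : PGaR) (p2 : PGbR)
    (p3 : PGcR) (t5 : TaskPG) (t6 : TaskPInc) (t7 : TaskPRig) (p4 : PMinR)
    (s2 : CaseR) (s3 : MinImgR) (g1 : SecSubR) (g2 : SecQuotR) (g3 : SecSimpR) (g4 : DecR)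
    (g5 : TaskDiag) (g6 : MinPGR) (g7 : TaskStrG) (g8 : ChainR) (g9 : CoreR) (g10 : TaskSectRig)
    (g11 : TaskGens) (g12 : TaskRigNA2) (g13 : TaskRigNA1) (g14 : TaskIncG) (g15 : TaskMain) :
    ∀ s : ℕ, ∃ c : ℕ, ∀ (G : Type) [Group G] [Finite G], SecGen s G →
      ∃ (V : Type) (_ : Finite V) (X : SimpleGraph V),
        Nonempty ((X ≃g X) ≃* G) ∧ Nat.card X.edgeSet ≤ c * Nat.card G := by
  have sect : SectR := t1 a3 a4
  have avoid : AvoidR := t2 sect a2
  have sub : SubR := t3 a4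
  have ext : ExtR := t4 a1 a3
  have pg : PGR := t5 p1 p2 p3
  have pinc : PIncR := t6 a1 a2 b0 sect pg
  have prig : PRigR := t7 a2 ext pinc
  have diag : DiagR := g5 g3 g4
  have str : StrGR := g7 g2 g6 diag
  have srig : SectRigR := g10 a3 a4
  have gens : GensR := g11 a1 a2
  have na2 : RigNA2R := g12 a1 g8 g9 srig
  have na1 : RigNA1R := g13 a1 b0 gens g3 srig
  have inc : IncGR := g14 a1 b0 sect avoid sub gens srig pinc prig p4 str s2 s3
  have main : MainR := g15 a2 ext g1 g2 g6 g4 na2 na1 inc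
  intro s
  refine ⟨22 * (360 + 42 * s), fun G _ _ hG => ?_⟩
  obtain ⟨V, hV, X, h1, h2⟩ := a5 G _ (main s G hG)
  exact ⟨V, hV, X, h1, by rw [mul_assoc]; exact h2⟩

end Pool.Agent.H104R3.EG
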