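import Pool.Agent.H104R3.EG.Stmts2

set_option autoImplicit false

/-! Task G8 (ChainR) of project EG. -/

namespace Pool.Agent.H104R3.EG.T_ChainR

open Pool.Agent.H104R3.EG

abbrev Nd (k : ℕ) : Type := Fin 6 ⊕ Option (Fin k)

def nx0 (k : ℕ) : Nd k → Nd k
  | .inl i => if h : i.val < 5 then .inl ⟨i.val + 1, by omega⟩ else
      if h : 0 < k then .inr (some ⟨k - 1, by omega⟩) else .inl i
  | .inr none => .inr none
  | .inr (some j) => .inr (some ⟨j.val - 1, by omega⟩)

def nxC (k : ℕ) (e : Fin 2) (i : Nd k) : Nd k := if e = 0 then nx0 k i else .inr none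

variable {G : Type} [Group G]

def lab (k : ℕ) (g : ℕ → G) : Nd k → G
  | .inl _ => 1
  | .inr none => 1
  | .inr (some j) => g j.val

def elC (k : ℕ) (g : ℕ → G) (e : Fin 2) (i : Nd k) : G := if e = 0 then 1 else lab k g i

def KC (k : ℕ) (L : Subgroup G) (D : ℕ → Subgroup G) : Nd k → Subgroup G
  | .inl _ => ⊥
  | .inr none => L
  | .inr (some j) => D j.val

theorem step0 (k : ℕ) (g : ℕ → G) (i : Nd k)
    (h : Reach (nxC k) (elC k g) (.inl 0) i 1) :
    Reach (nxC k) (elC k g) (.inl 0) (nx0 k i) 1 := by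
  have h1 := Reach.step (0 : Fin 2) _ _ h
  have e1 : nxC k 0 i = nx0 k i := by simp [nxC]
  have e2 : (1 : G) * elC k g 0 i = 1 := by simp [elC]
  rw [e1, e2] at h1
  exact h1

theorem step1 (k : ℕ) (g : ℕ → G) (i : Nd k)
    (h : Reach (nxC k) (elC k g) (.inl 0) i 1) :
    Reach (nxC k) (elC k g) (.inl 0) (.inr none) (lab k g i) := by
  have h1 := Reach.step (1 : Fin 2) _ _ h
  have e1 : nxC k 1 i = .inr none := by simp [nxC]
  have e2 : (1 : G) * elC k g 1 i = lab k g i := by simp [elC]
  rw [e1, e2] at h1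
  exact h1

theorem reach_inl (k : ℕ) (g : ℕ → G) (n : ℕ) :
    ∀ h : n < 6, Reach (nxC k) (elC k g) (.inl 0) (.inl ⟨n, h⟩) 1 := by
  induction n with
  | zero => intro h; exact Reach.base
  | succ n ih =>
    intro hn
    have h1 := step0 k g _ (ih (by omega))
    have e1 : nx0 k (.inl ⟨n, by omega⟩) = .inl ⟨n + 1, hn⟩ := by
      simp only [nx0]
      rw [dif_pos (by omega)]
    rw [e1] at h1
    exact h1

theorem reach_none (k : ℕ) (g : ℕ → G) :
    Reach (nxC k) (elC k g) (.inl 0) (.inr none) 1 :=
  step1 k g _ (reach_inl k g 0 (by omega))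

theorem reach_some (k : ℕ) (g : ℕ → G) (m : ℕ) :
    ∀ h : m < k, Reach (nxC k) (elC k g) (.inl 0) (.inr (some ⟨k - 1 - m, by omega⟩)) 1 := by
  induction m with
  | zero =>
    intro h
    have h1 := step0 k g _ (reach_inl k g 5 (by omega))
    have e1 : nx0 k (.inl ⟨5, by omega⟩) = .inr (some ⟨k - 1 - 0, by omega⟩) := by
      simp only [nx0]
      rw [dif_neg (by omega), dif_pos (by omega)]
      simp
    rw [e1] at h1
    exact h1
  | succ m ih =>
    intro h
    have h1 := step0 k g _ (ih (by omega))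
    have e1 : nx0 k (.inr (some ⟨k - 1 - m, by omega⟩)) =
        .inr (some ⟨k - 1 - (m + 1), by omega⟩) := by
      simp only [nx0]
      congr 3
    rw [e1] at h1
    exact h1

theorem reach_some' (k : ℕ) (g : ℕ → G) (j : Fin k) :
    Reach (nxC k) (elC k g) (.inl 0) (.inr (some j)) 1 := by
  have h := reach_some k g (k - 1 - j.val) (by omega)
  have e : (⟨k - 1 - (k - 1 - j.val), by omega⟩ : Fin k) = j := by
    apply Fin.ext
    simp only
    omega
  rw [e] at h
  exact h

theorem D_pred (D : ℕ → Subgroup G) (hD : ∀ j, D (j + 1) ≤ D j) (j : ℕ) : D j ≤ D (j - 1) := by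
  cases j with
  | zero => exact le_refl _
  | succ j => exact hD j

def sysC (k : ℕ) (L : Subgroup G) (D : ℕ → Subgroup G) (g : ℕ → G)
    (hD : ∀ j, D (j + 1) ≤ D j) (hg : ∀ j < k, ∀ x ∈ D j, (g j)⁻¹ * x * g j ∈ L) : Sys G where
  ι := Nd k
  fin := inferInstance
  big := by
    rw [Nat.card_eq_fintype_card]
    simp [Fintype.card_sum]
  K := KC k L D
  nx := nxC k
  el := elC k g
  cond := by
    intro e i x hx
    match i with
    | .inl i =>
      have hx' : x = 1 := Subgroup.mem_bot.1 hx
      subst hx'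
      simp only [mul_one, inv_mul_cancel]
      exact Subgroup.one_mem _
    | .inr none =>
      have hx' : x ∈ L := hx
      have e1 : elC k g e (.inr none) = 1 := by
        simp only [elC, lab]
        split <;> rfl
      have e2 : nxC k e (.inr none) = .inr none := by
        simp only [nxC, nx0]
        split <;> rfl
      rw [e1, e2]
      simp only [inv_one, one_mul, mul_one]
      exact hx'
    | .inr (some j) =>
      have hx' : x ∈ D j.val := hx
      by_cases he : e = 0
      · subst he
        have e1 : elC k g 0 (.inr (some j)) = 1 := by simp [elC]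
        have e2 : nxC k 0 (.inr (some j)) = .inr (some ⟨j.val - 1, by omega⟩) := by
          simp [nxC, nx0]
        rw [e1, e2]
        simp only [inv_one, one_mul, mul_one]
        exact D_pred D hD j.val hx'
      · have e1 : elC k g e (.inr (some j)) = g j.val := by simp [elC, he, lab]
        have e2 : nxC k e (.inr (some j)) = .inr none := by simp [nxC, he]
        rw [e1, e2]
        exact hg j.val j.2 x hx'
  root := .inl 0
  root_bot := rfl
  reach := by
    intro i
    match i with
    | .inl i => exact ⟨1, reach_inl k g i.1 i.2⟩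
    | .inr none => exact ⟨1, reach_none k g⟩
    | .inr (some j) => exact ⟨1, reach_some' k g j⟩

theorem sum_bound (n k : ℕ) (b : ℕ → ℕ) (hb : ∀ i < k, b i * 2 ^ i ≤ n) :
    2 ^ k * ∑ i ∈ Finset.range k, b i + 2 * n ≤ 2 ^ (k + 1) * n := by
  induction k with
  | zero => simp
  | succ k ih =>
    rw [Finset.sum_range_succ]
    have h1 := ih (fun i hi => hb i (by omega))
    have h2 := hb k (by omega)
    have h3 : 2 ^ (k + 1) * (∑ i ∈ Finset.range k, b i + b k) + 2 * n =
        2 * (2 ^ k * ∑ i ∈ Finset.range k, b i) + 2 * (b k * 2 ^ k) + 2 * n := by ring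
    have h4 : 2 ^ (k + 1 + 1) * n = 2 * (2 ^ (k + 1) * n) := by ring
    rw [h3, h4]
    omega

theorem chainR : ChainR := by
  intro G _ _ L k D g hD hg hcard
  refine ⟨sysC k L D g hD hg, ?_, ?_⟩
  · have hfin : ∀ H : Subgroup G, Finite (G ⧸ H) := fun H => Quotient.finite _
    have h1 : Nat.card (Σ i : Nd k, G ⧸ KC k L D i) =
        ∑ i : Nd k, Nat.card (G ⧸ KC k L D i) := by
      have : ∀ i : Nd k, Finite (G ⧸ KC k L D i) := fun i => hfin _
      exact Nat.card_sigma
    show Nat.card (Σ i : Nd k, G ⧸ KC k L D i) ≤ _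
    rw [h1, Fintype.sum_sum_type, Fintype.sum_option]
    have hbot : Nat.card (G ⧸ (⊥ : Subgroup G)) = Nat.card G := by
      have h := Subgroup.index_bot (G := G)
      rw [Subgroup.index] at h
      exact h
    have e1 : ∑ i : Fin 6, Nat.card (G ⧸ KC k L D (.inl i)) = 6 * Nat.card G := by
      have : ∀ i : Fin 6, Nat.card (G ⧸ KC k L D (.inl i)) = Nat.card G := fun i => hbot
      rw [Finset.sum_congr rfl fun i _ => this i]
      simp
    have e2 : Nat.card (G ⧸ KC k L D (.inr none)) ≤ Nat.card G := by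
      show Nat.card (G ⧸ L) ≤ _
      exact Nat.card_le_card_of_surjective (QuotientGroup.mk : G → G ⧸ L)
        QuotientGroup.mk_surjective
    have e3 : ∑ j : Fin k, Nat.card (G ⧸ KC k L D (.inr (some j))) ≤ 2 * Nat.card G := by
      have e4 : ∑ j : Fin k, Nat.card (G ⧸ KC k L D (.inr (some j))) =
          ∑ j ∈ Finset.range k, (D j).index := by
        rw [Finset.sum_range]
        rfl
      rw [e4, ← Finset.sum_range_reflect]
      have h5 := sum_bound (Nat.card G) k (fun i => (D (k - 1 - i)).index) (by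
        intro i hi
        have h6 := hcard (k - 1 - i) (by omega)
        have h7 : k - 1 - (k - 1 - i) = i := by omega
        rw [h7] at h6
        have h8 := Subgroup.index_mul_card (D (k - 1 - i))
        calc (D (k - 1 - i)).index * 2 ^ i ≤ (D (k - 1 - i)).index * Nat.card (D (k - 1 - i)) :=
              Nat.mul_le_mul_left _ h6
          _ = Nat.card G := h8)
      have h9 : 2 ^ k * ∑ i ∈ Finset.range k, (D (k - 1 - i)).index ≤
          2 ^ k * (2 * Nat.card G) := by
        calc _ ≤ 2 ^ (k + 1) * Nat.card G := by omega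
          _ = 2 ^ k * (2 * Nat.card G) := by ring
      exact Nat.le_of_mul_le_mul_left h9 (by positivity)
    omega
  · intro α hα j hj x
    have h0 := reach_none k g
    have h1 := step1 k g _ (reach_some' k g ⟨j, hj⟩)
    have h := hα (.inr none) 1 (g j) h0 h1 (x * g j) x (by
      show (x * g j * 1)⁻¹ * (x * g j) ∈ L
      have : (x * g j * 1)⁻¹ * (x * g j) = 1 := by group
      rw [this]
      exact L.one_mem)
    have h' : (α (x * g j) * 1)⁻¹ * (α x * g j) ∈ L := h
    refine ⟨((α (x * g j) * 1)⁻¹ * (α x * g j))⁻¹, L.inv_mem h', ?_⟩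
    group

end Pool.Agent.H104R3.EG.T_ChainR
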