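import Mathlib
import Pool.Agent.H104R3.EG.Stmts2

set_option autoImplicit false

namespace Pool.Agent.H104R3.EG

theorem coreR : Pool.Agent.H104R3.EG.CoreR := by
  intro G _ _ L α hL hα x k
  have key : (α k * x)⁻¹ * α (k * x) = 1 := by
    apply hL
    intro h
    obtain ⟨y1, hy1, e1⟩ := hα (k * x) h
    obtain ⟨y2, hy2, e2⟩ := hα k (x * h)
    rw [← mul_assoc k x h] at e2
    have e3 : α (k * x) * h * y1 = α k * (x * h) * y2 := e1.symm.trans e2
    have e4 : α (k * x) * h = α k * (x * h) * y2 * y1⁻¹ := by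
      rw [← e3]; group
    have e5 : h⁻¹ * ((α k * x)⁻¹ * α (k * x)) * h = y2 * y1⁻¹ := by
      calc h⁻¹ * ((α k * x)⁻¹ * α (k * x)) * h
          = h⁻¹ * (α k * x)⁻¹ * (α (k * x) * h) := by group
        _ = h⁻¹ * (α k * x)⁻¹ * (α k * (x * h) * y2 * y1⁻¹) := by rw [e4]
        _ = y2 * y1⁻¹ := by group
    rw [e5]
    exact L.mul_mem hy2 (L.inv_mem hy1)
  have := inv_mul_eq_one.1 key
  exact this.symm

end Pool.Agent.H104R3.EG
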