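import Pool.Agent.H104R3.EG.Stmts2

/-! # H104-EG TaskDiag (helper471) -/

set_option autoImplicit false

namespace Pool.Agent.H104R3.EG

namespace DiagAux

variable {G : Type} [Group G]

lemma mem_cj {g : G} {T : Subgroup G} {x : G} : x ∈ cj g T ↔ ∃ t ∈ T, g * t * g⁻¹ = x := by
  unfold cj
  rw [Subgroup.mem_map]
  rfl

lemma cj_mem {g t : G} {T : Subgroup G} (h : t ∈ T) : g * t * g⁻¹ ∈ cj g T := mem_cj.2 ⟨t, h, rfl⟩

lemma cj_closure {s : ℕ} (g : G) (t : Fin s → G) :
    cj g (Subgroup.closure (Set.range t)) =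
      Subgroup.closure (Set.range fun j => g * t j * g⁻¹) := by
  unfold cj
  rw [MonoidHom.map_closure, ← Set.range_comp]
  rfl

lemma card_cj (g : G) (T : Subgroup G) : Nat.card (cj g T) = Nat.card T := by
  unfold cj
  exact (Nat.card_congr (T.equivMapOfInjective (MulAut.conj g).toMonoidHom
    (MulAut.conj g).injective).toEquiv).symm

lemma simple_cj (g : G) (T : Subgroup G) (h : IsSimpleGroup T) : IsSimpleGroup (cj g T) := by
  unfold cj
  exact (T.equivMapOfInjective (MulAut.conj g).toMonoidHom
    (MulAut.conj g).injective).isSimpleGroup_congr.1 h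

end DiagAux

open DiagAux in
theorem diag : TaskDiag := by
  intro hSec hDec s G _ _ X r hr Q hmin hna hsec hQ
  classical
  haveI : Fact r.Prime := ⟨hr⟩
  obtain ⟨k, T, g, T0, D⟩ := hDec G X hmin hna
  obtain ⟨t, ht⟩ := hSec s G hsec T0 D.simple D.nonab
  have htm : ∀ j, t j ∈ T0 := by
    intro j
    rw [← ht]
    exact Subgroup.subset_closure ⟨j, rfl⟩
  set e : Fin s → Fin k → G := fun j i => g i * t j * (g i)⁻¹ with he
  have heT : ∀ j i, e j i ∈ T i := by
    intro j i
    rw [D.conj i]
    exact cj_mem (htm j)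
  have hTX : ∀ i, T i ≤ X := by
    intro i
    rw [← D.sup]
    exact le_iSup T i
  have hcomm : ∀ j, ((Finset.univ : Finset (Fin k)) : Set (Fin k)).Pairwise
      (Function.onFun Commute (e j)) := by
    intro j a _ b _ hab
    exact D.comm a b hab _ (heT j a) _ (heT j b)
  set x : Fin s → G := fun j => Finset.univ.noncommProd (e j) (hcomm j) with hx
  have hxX : ∀ j, x j ∈ X := by
    intro j
    exact X.noncommProd_mem (hcomm j) fun i _ => hTX i (heT j i)
  have hxc : ∀ j i, ∀ y ∈ T i, x j * y * (x j)⁻¹ = e j i * y * (e j i)⁻¹ := by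
    intro j i y hy
    have h1 : e j i * (Finset.univ.erase i).noncommProd (e j) (fun _ hx _ hy hxy =>
        hcomm j (Finset.mem_coe.2 (Finset.mem_of_mem_erase hx))
          (Finset.mem_coe.2 (Finset.mem_of_mem_erase hy)) hxy) = x j :=
      Finset.mul_noncommProd_erase Finset.univ (Finset.mem_univ i) (e j) (hcomm j)
    set z := (Finset.univ.erase i).noncommProd (e j) (fun _ hx _ hy hxy =>
        hcomm j (Finset.mem_coe.2 (Finset.mem_of_mem_erase hx))
          (Finset.mem_coe.2 (Finset.mem_of_mem_erase hy)) hxy) with hz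
    have h2 : Commute y z := by
      refine Finset.noncommProd_commute _ _ _ _ fun i' hi' => ?_
      exact D.comm i i' (Finset.ne_of_mem_erase hi').symm _ hy _ (heT j i')
    rw [← h1]
    have h3 : z * y * z⁻¹ = y := by
      rw [← h2.eq, mul_inv_cancel_right]
    calc e j i * z * y * (e j i * z)⁻¹ = e j i * (z * y * z⁻¹) * (e j i)⁻¹ := by group
      _ = _ := by rw [h3]
  -- `T i` is normalized by `X`
  have hTgen : ∀ i, T i = Subgroup.closure (Set.range fun j => e j i) := by
    intro i
    rw [D.conj i, ← ht, cj_closure]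
  have hTn : ∀ i, X ≤ Subgroup.normalizer (T i : Set G) := by
    intro i
    rw [← D.sup]
    refine iSup_le fun i' => ?_
    intro z hz
    rw [Subgroup.mem_normalizer_iff]
    intro y
    by_cases h : i' = i
    · subst h
      constructor
      · intro hy
        exact (T i').mul_mem ((T i').mul_mem hz hy) ((T i').inv_mem hz)
      · intro hy
        have := (T i').mul_mem ((T i').mul_mem ((T i').inv_mem hz) hy) hz
        simpa [mul_assoc] using this
    · have hc : ∀ w ∈ T i, z * w * z⁻¹ = w := by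
        intro w hw
        rw [D.comm i' i h z hz w hw, mul_inv_cancel_right]
      have hc' : ∀ w ∈ T i, z⁻¹ * w * z = w := by
        intro w hw
        have := D.comm i' i h z hz w hw
        rw [mul_assoc, ← this, inv_mul_cancel_left]
      constructor
      · intro hy
        rw [hc y hy]
        exact hy
      · intro hy
        have h1 := hc' _ hy
        have h2 : z⁻¹ * (z * y * z⁻¹) * z = y := by group
        rw [h2] at h1
        rw [h1]
        exact hy
  have hcard : ∀ i, Nat.card (T i) = Nat.card T0 := by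
    intro i
    rw [D.conj i, card_cj]
  -- `r` divides the order of `T0`
  have hrX : r ∣ Nat.card X := by
    have h1 : r ∣ Nat.card (Q : Subgroup X) := by
      obtain ⟨n, hn⟩ := (IsPGroup.iff_card.1 Q.isPGroup')
      rcases Nat.eq_zero_or_pos n with h0 | h0
      · rw [h0, pow_zero] at hn
        exact absurd (Subgroup.card_eq_one.1 hn) hQ
      · have : r ∣ r ^ n := dvd_pow_self r h0.ne'
        rw [hn]
        exact this
    exact h1.trans (Subgroup.card_subgroup_dvd_card _)
  have hrT : r ∣ Nat.card T0 := by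
    have hc : Pairwise fun i j : Fin k => ∀ x y : G, x ∈ T i → y ∈ T j → Commute x y :=
      fun i j hij x y hx hy => D.comm i j hij x hx y hy
    have h1 : (Subgroup.noncommPiCoprod hc).range = X := by
      rw [Subgroup.noncommPiCoprod_range, D.sup]
    have h2 := Subgroup.card_range_dvd (Subgroup.noncommPiCoprod hc)
    rw [h1, Nat.card_pi] at h2
    obtain ⟨i, _, hi⟩ := (Prime.dvd_finset_prod_iff hr.prime _).1 (hrX.trans h2)
    rwa [hcard] at hi
  set H : Subgroup G := (Q : Subgroup X).map X.subtype ⊔ Subgroup.closure (Set.range x) with hH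
  have hxH : ∀ j, x j ∈ H := fun j =>
    (le_sup_right : Subgroup.closure (Set.range x) ≤ H) (Subgroup.subset_closure ⟨j, rfl⟩)
  -- `H ⊓ T i` is not trivial
  have hne : ∀ i, H ⊓ T i ≠ ⊥ := by
    intro i
    have hri : r ∣ Nat.card (T i) := by rw [hcard]; exact hrT
    obtain ⟨y, hy⟩ := exists_prime_orderOf_dvd_card' (G := T i) r hri
    set y' : X := ⟨(y : G), hTX i y.2⟩ with hy'
    have hoy : orderOf y' = r := by
      rw [← hy, ← Subgroup.orderOf_coe, ← Subgroup.orderOf_coe y]
    have hpg : IsPGroup r (Subgroup.zpowers y') := by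
      apply IsPGroup.of_card (n := 1)
      rw [Nat.card_zpowers, hoy, pow_one]
    obtain ⟨Q', hQ'⟩ := hpg.exists_le_sylow
    obtain ⟨z, hz⟩ := MulAction.exists_smul_eq X Q' Q
    have h1 : z * y' * z⁻¹ ∈ (Q : Subgroup X) := by
      rw [← hz, Sylow.coe_subgroup_smul]
      have h2 : y' ∈ (Q' : Subgroup X) := hQ' (Subgroup.mem_zpowers y')
      exact Subgroup.smul_mem_pointwise_smul _ (MulAut.conj z) _ h2
    have h3 : (z : G) * y * (z : G)⁻¹ ∈ H :=
      (le_sup_left : (Q : Subgroup X).map X.subtype ≤ H)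
        (Subgroup.mem_map.2 ⟨z * y' * z⁻¹, h1, by simp [hy']⟩)
    have h4 : (z : G) * y * (z : G)⁻¹ ∈ T i :=
      (Subgroup.mem_normalizer_iff.1 (hTn i z.2) y).1 y.2
    intro hbot
    have h5 : (z : G) * y * (z : G)⁻¹ ∈ H ⊓ T i := ⟨h3, h4⟩
    rw [hbot, Subgroup.mem_bot] at h5
    have h6 : (y : G) = 1 := by
      have : (z : G) * y = z := by rwa [mul_inv_eq_one] at h5
      simpa using this
    have h7 : y = 1 := Subtype.ext h6
    rw [h7, orderOf_one] at hy
    exact hr.one_lt.ne hy
  -- `H ⊓ T i` is normalized by `T i`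
  have hnorm : ∀ i, T i ≤ Subgroup.normalizer ((H ⊓ T i : Subgroup G) : Set G) := by
    intro i
    conv_lhs => rw [hTgen i]
    rw [Subgroup.closure_le]
    rintro _ ⟨j, rfl⟩
    show e j i ∈ Subgroup.normalizer ((H ⊓ T i : Subgroup G) : Set G)
    rw [Subgroup.mem_normalizer_iff]
    intro y
    have hE := heT j i
    constructor
    · rintro ⟨h1, h2⟩
      refine ⟨?_, (T i).mul_mem ((T i).mul_mem hE h2) ((T i).inv_mem hE)⟩
      rw [SetLike.mem_coe, ← hxc j i y h2]
      exact H.mul_mem (H.mul_mem (hxH j) h1) (H.inv_mem (hxH j))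
    · rintro ⟨h1, h2⟩
      have h3 : y ∈ T i := by
        have := (T i).mul_mem ((T i).mul_mem ((T i).inv_mem hE) h2) hE
        simpa [mul_assoc] using this
      refine ⟨?_, h3⟩
      rw [SetLike.mem_coe, ← hxc j i y h3] at h1
      have := H.mul_mem (H.mul_mem (H.inv_mem (hxH j)) h1) (hxH j)
      simpa [mul_assoc] using this
  have hle : ∀ i, T i ≤ H := by
    intro i
    haveI : IsSimpleGroup (T i) := by
      rw [D.conj i]
      exact simple_cj _ _ D.simple
    have hN : ((H ⊓ T i).subgroupOf (T i)).Normal := by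
      refine ⟨fun n hn z => ?_⟩
      rw [Subgroup.mem_subgroupOf] at hn ⊢
      exact (Subgroup.mem_normalizer_iff.1 (hnorm i z.2) (n : G)).1 hn
    rcases hN.eq_bot_or_eq_top with h | h
    · exfalso
      rw [Subgroup.subgroupOf_eq_bot, disjoint_iff, inf_assoc, inf_idem] at h
      exact hne i h
    · rw [Subgroup.subgroupOf_eq_top] at h
      exact h.trans inf_le_left
  refine ⟨x, hxX, ?_⟩
  calc X = ⨆ i, T i := D.sup.symm
    _ ≤ H := iSup_le hle

end Pool.Agent.H104R3.EG
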