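import Pool.Agent.H104R3.EG.Stmts2

set_option autoImplicit false

/-! Project EG (MP_585e73_co), task TaskRigNA2 (G12). -/

namespace Pool.Agent.H104R3.EG.RigNA2

open Pool.Agent.H104R3.EG

theorem mem_cj {G : Type} [Group G] (x y : G) (T : Subgroup G) :
    y ∈ cj x T ↔ x⁻¹ * y * x ∈ T := by
  unfold cj
  rw [Subgroup.mem_map]
  constructor
  · rintro ⟨z, hz, rfl⟩
    have : x⁻¹ * (MulAut.conj x).toMonoidHom z * x = z := by
      simp [MulAut.conj_apply, mul_assoc]
    rw [this]
    exact hz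
  · intro h
    exact ⟨x⁻¹ * y * x, h, by simp [MulAut.conj_apply, mul_assoc]⟩

theorem taskRigNA2 : TaskRigNA2 := by
  intro hComb hChain hCore hSect G _ _ X k T g T0 c hX hk hD hRig
  classical
  obtain ⟨i0, hi0⟩ := hD.one
  have hT0 : T i0 = T0 := by
    ext y
    rw [hD.conj i0, mem_cj, hi0]
    simp
  have hXn := hX.1
  have hTX : ∀ i, T i ≤ X := fun i => by
    rw [← hD.sup]
    exact le_iSup T i
  have hTmem : ∀ i y, y ∈ T i ↔ (g i)⁻¹ * y * g i ∈ T0 := by
    intro i y
    rw [hD.conj i, mem_cj]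
  have hNA : ∀ i, ∃ x ∈ T i, ∃ y ∈ T i, x * y ≠ y * x := by
    intro i
    obtain ⟨x, hx, y, hy, hxy⟩ := hD.nonab
    refine ⟨g i * x * (g i)⁻¹, ?_, g i * y * (g i)⁻¹, ?_, ?_⟩
    · rw [hTmem]
      simpa [mul_assoc] using hx
    · rw [hTmem]
      simpa [mul_assoc] using hy
    · intro h
      apply hxy
      have h1 : g i * (x * y) * (g i)⁻¹ = g i * (y * x) * (g i)⁻¹ := by
        calc g i * (x * y) * (g i)⁻¹ = g i * x * (g i)⁻¹ * (g i * y * (g i)⁻¹) := by group
          _ = g i * y * (g i)⁻¹ * (g i * x * (g i)⁻¹) := h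
          _ = g i * (y * x) * (g i)⁻¹ := by group
      exact mul_left_cancel (mul_right_cancel h1)
  set M : Subgroup G := Subgroup.normalizer (T0 : Set G) with hM
  set K0 : Subgroup G := X ⊓ Subgroup.centralizer (T0 : Set G) with hK0
  have hMmem : ∀ m, m ∈ M ↔ ∀ x, x ∈ T0 ↔ m * x * m⁻¹ ∈ T0 := by
    intro m
    rw [hM, Subgroup.mem_normalizer_iff]
  have hK0mem : ∀ x, x ∈ K0 ↔ x ∈ X ∧ ∀ y ∈ T0, y * x = x * y := by
    intro x
    rw [hK0, Subgroup.mem_inf, Subgroup.mem_centralizer_iff]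
    rfl
  have hK0conj : ∀ m ∈ M, ∀ x ∈ K0, m * x * m⁻¹ ∈ K0 := by
    intro m hm x hx
    rw [hK0mem] at hx ⊢
    refine ⟨hXn.conj_mem x hx.1 m, ?_⟩
    intro y hy
    have h1 : m⁻¹ * y * m ∈ T0 := by
      rw [(hMmem m).1 hm]
      simpa [mul_assoc] using hy
    have h2 := hx.2 _ h1
    calc y * (m * x * m⁻¹) = m * ((m⁻¹ * y * m) * x) * m⁻¹ := by group
      _ = m * (x * (m⁻¹ * y * m)) * m⁻¹ := by rw [h2]
      _ = m * x * m⁻¹ * y := by group
  have hK0M : K0 ≤ M := by
    intro x hx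
    rw [hK0mem] at hx
    rw [hMmem]
    intro y
    constructor
    · intro hy
      have : x * y * x⁻¹ = y := by rw [← hx.2 y hy]; group
      rw [this]
      exact hy
    · intro hy
      have h1 := hx.2 _ hy
      have h2 : x * y * x⁻¹ = y := by
        have h3 : x * y = x * (x * y * x⁻¹) := by
          rw [← h1]
          group
        exact (mul_left_cancel h3).symm
      rwa [h2] at hy
  have hKn : (K0.subgroupOf M).Normal := by
    refine ⟨fun n hn m => ?_⟩
    rw [Subgroup.mem_subgroupOf] at hn ⊢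
    exact hK0conj m m.2 n hn
  have hTK : ∀ j, j ≠ i0 → T j ≤ K0 := by
    intro j hj x hx
    rw [hK0mem]
    refine ⟨hTX j hx, fun y hy => ?_⟩
    rw [← hT0] at hy
    exact hD.comm i0 j (Ne.symm hj) y hy x hx
  have hKne : K0.subgroupOf M ≠ ⊥ := by
    have : Nontrivial (Fin k) := Fin.nontrivial_iff_two_le.2 hk
    obtain ⟨j, hj⟩ := exists_ne i0
    obtain ⟨x, hx, y, hy, hxy⟩ := hNA j
    intro hbot
    have hx1 : x = 1 := by
      have h1 : (⟨x, hK0M (hTK j hj hx)⟩ : M) ∈ K0.subgroupOf M := by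
        rw [Subgroup.mem_subgroupOf]
        exact hTK j hj hx
      rw [hbot, Subgroup.mem_bot] at h1
      exact congrArg Subtype.val h1
    apply hxy
    rw [hx1]
    simp
  -- the section
  have hsect := hSect G K0 M (c * Nat.card (M ⧸ K0.subgroupOf M)) hK0M
    (hRig M (K0.subgroupOf M) hKne)
  -- the chain
  let D : ℕ → Subgroup G := fun j => ⨆ i : Fin k, ⨆ (_ : j < i.val), T i
  let g' : ℕ → G := fun j => if h : j < k then g ⟨j, h⟩ else 1
  have hg' : ∀ j (h : j < k), g' j = g ⟨j, h⟩ := fun j h => dif_pos h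
  have hTD : ∀ (j : ℕ) (i : Fin k), j < i.val → T i ≤ D j := fun j i h =>
    le_iSup₂_of_le i h le_rfl
  have hDX : ∀ j, D j ≤ X := fun j => iSup₂_le fun i _ => hTX i
  have hDc : ∀ j (h : j < k), ∀ x ∈ D j, ∀ y ∈ T ⟨j, h⟩, y * x = x * y := by
    intro j h x hx
    have h1 : D j ≤ Subgroup.centralizer (T ⟨j, h⟩ : Set G) := by
      refine iSup₂_le fun i hi => ?_
      intro z hz
      rw [Subgroup.mem_centralizer_iff]
      intro y hy
      refine hD.comm ⟨j, h⟩ i ?_ y hy z hz
      intro he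
      rw [← he] at hi
      exact lt_irrefl _ hi
    exact (Subgroup.mem_centralizer_iff.1 (h1 hx))
  have hD1 : ∀ j, D (j + 1) ≤ D j := fun j => iSup₂_le fun i hi => hTD j i (by omega)
  have hconj0 : ∀ j (h : j < k), ∀ x ∈ X, (∀ y ∈ T ⟨j, h⟩, y * x = x * y) →
      (g ⟨j, h⟩)⁻¹ * x * g ⟨j, h⟩ ∈ K0 := by
    intro j h x hx hc
    rw [hK0mem]
    refine ⟨by simpa using hXn.conj_mem x hx (g ⟨j, h⟩)⁻¹, ?_⟩
    intro y hy
    set a := g ⟨j, h⟩ with ha
    have h1 : a * y * a⁻¹ ∈ T ⟨j, h⟩ := by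
      rw [hTmem, ← ha]
      simpa [mul_assoc] using hy
    have h2 := hc _ h1
    calc y * (a⁻¹ * x * a) = a⁻¹ * ((a * y * a⁻¹) * x) * a := by group
      _ = a⁻¹ * (x * (a * y * a⁻¹)) * a := by rw [h2]
      _ = a⁻¹ * x * a * y := by group
  have hD2 : ∀ j < k, ∀ x ∈ D j, (g' j)⁻¹ * x * g' j ∈ K0 := by
    intro j hj x hx
    rw [hg' j hj]
    exact hconj0 j hj x (hDX j hx) (hDc j hj x hx)
  have hD3' : ∀ d j, j + d + 1 = k → 2 ^ d ≤ Nat.card (D j) := by
    intro d
    induction d with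
    | zero =>
      intro j _
      rw [pow_zero]
      exact Nat.card_pos
    | succ d ih =>
      intro j hj
      have h1 := ih (j + 1) (by omega)
      have hne : D (j + 1) ≠ D j := by
        intro he
        have hj1 : j + 1 < k := by omega
        have h2 : T ⟨j + 1, hj1⟩ ≤ D (j + 1) := by
          rw [he]
          exact hTD j ⟨j + 1, hj1⟩ (by simp)
        obtain ⟨x, hx, y, hy, hxy⟩ := hNA ⟨j + 1, hj1⟩
        exact hxy (hDc (j + 1) hj1 y (h2 hy) x hx)
      obtain ⟨m, hm⟩ := Subgroup.card_dvd_of_le (hD1 j)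
      have hm2 : 2 ≤ m := by
        by_contra hlt
        have hm01 : m = 0 ∨ m = 1 := by omega
        rcases hm01 with rfl | rfl
        · rw [mul_zero] at hm
          exact absurd hm Nat.card_pos.ne'
        · rw [mul_one] at hm
          exact hne (Subgroup.eq_of_le_of_card_ge (hD1 j) hm.le)
      rw [hm, pow_succ]
      exact Nat.mul_le_mul h1 hm2
  have hD3 : ∀ j < k, 2 ^ (k - 1 - j) ≤ Nat.card (D j) := fun j hj => hD3' _ j (by omega)
  have hchain := hChain G K0 k D g' hD1 hD2 hD3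
  have hcomb := hComb G _ _ _ _ hchain hsect
  refine ⟨10 * Nat.card G + (3 * Nat.card G + M.index * (c * Nat.card (M ⧸ K0.subgroupOf M))) +
      Nat.card G, ?_, ?_⟩
  · obtain ⟨S, hS, hα⟩ := hcomb
    refine ⟨S, hS, fun α hA => ?_⟩
    obtain ⟨hP, hQ⟩ := hα α hA
    apply hCore G K0 α
    · -- the core
      intro x hx
      have hxX : x ∈ X := by
        have := hx 1
        rw [hK0mem] at this
        simpa using this.1
      have hxT : ∀ i, T i ≤ Subgroup.centralizer ({x} : Set G) := by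
        intro i y hy
        rw [Subgroup.mem_centralizer_iff]
        intro z hz
        rw [Set.mem_singleton_iff.1 hz]
        have h1 := ((hK0mem _).1 (hx (g i))).2 _ ((hTmem i y).1 hy)
        set a := g i with ha
        have h2 : a⁻¹ * (y * x) * a = a⁻¹ * (x * y) * a := by
          calc a⁻¹ * (y * x) * a = a⁻¹ * y * a * (a⁻¹ * x * a) := by group
            _ = a⁻¹ * x * a * (a⁻¹ * y * a) := h1
            _ = a⁻¹ * (x * y) * a := by group
        exact (mul_left_cancel (mul_right_cancel h2)).symm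
      have hXc : X ≤ Subgroup.centralizer ({x} : Set G) := by
        rw [← hD.sup]
        exact iSup_le hxT
      -- the centre of X
      let Z : Subgroup G := X ⊓ Subgroup.centralizer (X : Set G)
      have hZn : Z.Normal := by
        refine ⟨fun z hz m => ?_⟩
        obtain ⟨hz1, hz2⟩ := Subgroup.mem_inf.1 hz
        refine Subgroup.mem_inf.2 ⟨hXn.conj_mem z hz1 m, ?_⟩
        rw [Subgroup.mem_centralizer_iff] at hz2 ⊢
        intro y hy
        have h1 : m⁻¹ * y * m ∈ X := by simpa using hXn.conj_mem y hy m⁻¹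
        have h2 := hz2 _ h1
        calc y * (m * z * m⁻¹) = m * ((m⁻¹ * y * m) * z) * m⁻¹ := by group
          _ = m * (z * (m⁻¹ * y * m)) * m⁻¹ := by rw [h2]
          _ = m * z * m⁻¹ * y := by group
      have hxZ : x ∈ Z := by
        refine Subgroup.mem_inf.2 ⟨hxX, ?_⟩
        rw [Subgroup.mem_centralizer_iff]
        intro y hy
        have := hXc hy
        rw [Subgroup.mem_centralizer_iff] at this
        exact (this x rfl).symm
      rcases hX.2.2 Z hZn inf_le_left with hZ | hZ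
      · rw [hZ, Subgroup.mem_bot] at hxZ
        exact hxZ
      · exfalso
        obtain ⟨a, ha, b, hb, hab⟩ := hNA i0
        have haX := hTX i0 ha
        have hbX := hTX i0 hb
        rw [← hZ] at haX
        have h1 := (Subgroup.mem_inf.1 haX).2
        rw [Subgroup.mem_centralizer_iff] at h1
        exact hab (h1 b hbX).symm
    · -- ModN
      intro u x
      obtain ⟨j, hj⟩ := hD.perm x i0
      set a := g j with ha
      have hq : a⁻¹ * x ∈ M := by
        rw [hMmem]
        intro y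
        have h1 : x * y * x⁻¹ ∈ cj x (T i0) ↔ x * y * x⁻¹ ∈ T j := by rw [hj]
        rw [mem_cj, hT0, hTmem, ← ha] at h1
        have h2 : x⁻¹ * (x * y * x⁻¹) * x = y := by group
        have h3 : a⁻¹ * (x * y * x⁻¹) * a = a⁻¹ * x * y * (a⁻¹ * x)⁻¹ := by group
        rw [h2, h3] at h1
        exact h1
      obtain ⟨y1, hy1, he1⟩ := hQ (a⁻¹ * x) hq (u * a)
      obtain ⟨y2, hy2, he2⟩ := hP j j.2 u
      rw [hg' j j.2] at he2
      have he2' : α (u * a) = α u * a * y2 := he2
      refine ⟨(a⁻¹ * x)⁻¹ * y2 * (a⁻¹ * x) * y1, ?_, ?_⟩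
      · refine K0.mul_mem ?_ hy1
        simpa using hK0conj _ (M.inv_mem hq) y2 hy2
      · have h1 : u * x = u * a * (a⁻¹ * x) := by group
        rw [h1, he1, he2']
        group
  · -- the size
    have h1 := Subgroup.card_eq_card_quotient_mul_card_subgroup (K0.subgroupOf M)
    have h2 := M.card_mul_index
    have h3 : 2 ≤ Nat.card (K0.subgroupOf M) := (Subgroup.one_lt_card_iff_ne_bot _).2 hKne
    rw [h1] at h2
    have h4 : 2 * (M.index * (c * Nat.card (M ⧸ K0.subgroupOf M))) ≤ c * Nat.card G := by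
      rw [← h2]
      calc 2 * (M.index * (c * Nat.card (M ⧸ K0.subgroupOf M))) =
          c * (Nat.card (M ⧸ K0.subgroupOf M) * 2 * M.index) := by ring
        _ ≤ c * (Nat.card (M ⧸ K0.subgroupOf M) * Nat.card (K0.subgroupOf M) * M.index) := by
          gcongr
    nlinarith

end Pool.Agent.H104R3.EG.RigNA2
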