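import Mathlib
import Pool.Agent.H104R3.EG.Stmts2

set_option autoImplicit false

namespace Pool.Agent.H104R3.EG

theorem secQuotR : SecQuotR := by
  intro s G _ _ h N _ A B _ hs hnc
  let f : (A.comap (QuotientGroup.mk' N)) →* A := (QuotientGroup.mk' N).subgroupComap A
  have hf : Function.Surjective f :=
    MonoidHom.subgroupComap_surjective_of_surjective _ _ (QuotientGroup.mk'_surjective N)
  let g : (A.comap (QuotientGroup.mk' N)) →* A ⧸ B := (QuotientGroup.mk' B).comp f
  have hg : Function.Surjective g := (QuotientGroup.mk'_surjective B).comp hf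
  let e := QuotientGroup.quotientKerEquivOfSurjective g hg
  have hsimp : IsSimpleGroup ((A.comap (QuotientGroup.mk' N)) ⧸ g.ker) := e.isSimpleGroup
  obtain ⟨x, hx⟩ := h (A.comap (QuotientGroup.mk' N)) g.ker hsimp (by
    obtain ⟨x, y, hxy⟩ := hnc
    refine ⟨e.symm x, e.symm y, fun hh => hxy ?_⟩
    have := congrArg e hh
    simpa using this)
  refine ⟨fun i => e (x i), ?_⟩
  have h1 : Set.range (fun i => e (x i)) = e.toMonoidHom '' (Set.range x) := by
    rw [← Set.range_comp]; rfl
  rw [h1, ← MonoidHom.map_closure, hx, ← MonoidHom.range_eq_map]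
  exact MonoidHom.range_eq_top.2 e.surjective

end Pool.Agent.H104R3.EG
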