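import Pool.Agent.H104R3.EG.Stmts2

set_option autoImplicit false

/-! Task SecSubR: sections of subgroups. -/

namespace Pool.Agent.H104R3.EG

theorem secSubR : SecSubR := by
  intro s G _ _ hG H A B hB hsimple hnc
  let A' : Subgroup G := A.map H.subtype
  let e : A ≃* A' := A.equivMapOfInjective H.subtype H.subtype_injective
  let B' : Subgroup A' := B.map e.toMonoidHom
  have hB' : B'.Normal := hB.map e.toMonoidHom e.surjective
  let E : A ⧸ B ≃* A' ⧸ B' := QuotientGroup.congr B B' e rfl
  have hs' : IsSimpleGroup (A' ⧸ B') := E.isSimpleGroup_congr.1 hsimple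
  obtain ⟨x, y, hxy⟩ := hnc
  obtain ⟨z, hz⟩ := hG A' B' hs' ⟨E x, E y, fun h => hxy (E.injective (by
    rw [map_mul, map_mul]; exact h))⟩
  refine ⟨fun i => E.symm (z i), ?_⟩
  have h1 : Set.range (fun i => E.symm (z i)) = E.symm.toMonoidHom '' Set.range z := by
    rw [← Set.range_comp]; rfl
  rw [h1, ← MonoidHom.map_closure, hz, ← MonoidHom.range_eq_map]
  exact MonoidHom.range_eq_top.2 E.symm.surjective

end Pool.Agent.H104R3.EG
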