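import Pool.Agent.H104R3.EG.Stmts2
import Pool.Agent.H104R3.EG.T_Sect

set_option autoImplicit false

/-! Task G10 of project EG (helper449): sections with a rigid system. -/

namespace Pool.Agent.H104R3.EG

theorem taskSectRig : TaskSectRig := by
  intro hQ hI G _ _ K M _ n hKM hRig
  have h1 := hQ M (K.subgroupOf M) n _ hRig
  have h2 := hI G M _ _ h1
  refine Real.weaken h2 ?_ ?_
  · have hc : M.index * Nat.card M = Nat.card G := by
      rw [mul_comm]; exact Subgroup.card_mul_index M
    have hpos : 0 < Nat.card M := Nat.card_pos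
    have hi : M.index ≤ Nat.card G := by
      rw [← hc]; exact Nat.le_mul_of_pos_right _ hpos
    rw [mul_add, hc]
    omega
  · intro α hα x hx k
    obtain ⟨β, ⟨bb, hbb, hbβ⟩, hβ⟩ := hα k
    have hb1 : β 1 = 1 := by
      have := hβ 1
      simp only [OneMemClass.coe_one, mul_one] at this
      have h3 : (β 1 : G) = 1 := by
        have h4 : α k * 1 = α k * (β 1 : G) := by rw [mul_one]; exact this
        exact (mul_left_cancel h4).symm
      exact_mod_cast h3
    have hcomm := hbb ((⟨x, hx⟩ : M) : M ⧸ K.subgroupOf M) ((1 : M) : M ⧸ K.subgroupOf M)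
    rw [← QuotientGroup.mk_mul, hbβ, hbβ, hb1, one_mul, QuotientGroup.mk_one, one_mul] at hcomm
    have hK : (⟨x, hx⟩ : M)⁻¹ * β ⟨x, hx⟩ ∈ K.subgroupOf M := by
      rw [← QuotientGroup.eq]; exact hcomm.symm
    refine ⟨x⁻¹ * (β ⟨x, hx⟩ : M), ?_, ?_⟩
    · have := Subgroup.mem_subgroupOf.mp hK
      rwa [Subgroup.coe_mul, Subgroup.coe_inv] at this
    · have e1 := hβ ⟨x, hx⟩
      rw [e1]
      group

end Pool.Agent.H104R3.EG
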