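import Mathlib
import Pool.Agent.H104R3.EG.Stmts2
import Pool.Agent.H104R3.EG.Solv
import Pool.Agent.H104R3.EG.T_SecSubR
import Pool.Agent.H104R3.EG.T_SecQuotR
import Pool.Agent.H886R3.TaskEGSimp
import Pool.Agent.H22R3.EG.T_DecR
import Pool.Agent.H104R3.EG.T_Diag
import Pool.Agent.H104R3.EG.T_MinPGR
import Pool.Agent.H104R3.EG.T_ChainR
import Pool.Agent.H104R3.EG.T_CoreR
import Pool.Agent.H104R3.EG.T_SectRig
import Pool.Agent.H138R3.EG.Gens
import Pool.Agent.H104R3.EG.T_RigNA2
import Pool.Agent.H676R4.EGNA1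
import Pool.Agent.H170.EG.IncG
import Pool.Agent.H511R3.EG.Main

set_option autoImplicit false

namespace Pool.Agent.H104R3.EG

theorem mainR (strG : TaskStrG) : MainR := by
  have sect : SectR := taskSect T_QuotR.quotR Pool.Agent.H455R3.EG.indR
  have avoid : AvoidR := taskAvoid sect T_GenR.genR
  have sub : SubR := taskSub Pool.Agent.H455R3.EG.indR
  have ext : ExtR := Pool.Agent.H630R3.EG.taskExt combR T_QuotR.quotR
  have pg : PGR := taskPG Pool.Agent.H335R3.EGPGa.pga TPGb.pGbR pgcR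
  have pinc : PIncR := Pool.Agent.H823R3.EG.taskPInc combR T_GenR.genR invR sect pg
  have prig : PRigR := taskPRig T_GenR.genR ext pinc
  have g3 : SecSimpR := Pool.Agent.H886R3.EG.secSimpR
  have dg : DiagR := diag g3 Pool.Agent.H22R3.EG.decR
  have str : StrGR := strG secQuotR minPGR dg
  have srig : SectRigR := taskSectRig T_QuotR.quotR Pool.Agent.H455R3.EG.indR
  have gens : GensR := taskGens combR T_GenR.genR
  have na2 : RigNA2R := RigNA2.taskRigNA2 combR T_ChainR.chainR coreR srig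
  have na1 : RigNA1R := Pool.Agent.H676R4.EGNA1.taskRigNA1 combR invR gens g3 srig
  have inc : IncGR := Pool.Agent.H170.EG.taskIncG combR invR sect avoid sub gens srig pinc prig
    pMinR str caseR MinImgT.minImgR
  exact taskMain T_GenR.genR ext secSubR secQuotR minPGR Pool.Agent.H22R3.EG.decR na2 na1 inc

/-- a solvable group has no nonabelian simple section -/
theorem secGen_of_solvable (G : Type) [Group G] [Group.IsSolvable G] : SecGen 0 G := by
  intro A B _ hs ⟨x, y, hxy⟩
  exact absurd (IsSimpleGroup.comm_iff_isSolvable.2 (inferInstance : Group.IsSolvable (A ⧸ B)) x y)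
    hxy

theorem main (strG : TaskStrG) : ∃ c : ℕ,
    (∀ (G : Type) [Group G] [Finite G] [Group.IsSolvable G],
      ∃ (V : Type) (_ : Finite V) (X : SimpleGraph V),
        Nonempty ((X ≃g X) ≃* G) ∧ Nat.card X.edgeSet ≤ c * Nat.card G) ∧
    ∀ (s : ℕ) (G : Type) [Group G] [Finite G], SecGen s G →
      ∃ (V : Type) (_ : Finite V) (X : SimpleGraph V),
        Nonempty ((X ≃g X) ≃* G) ∧ Nat.card X.edgeSet ≤ c * (s + 1) * Nat.card G := by
  have key : ∀ (s : ℕ) (G : Type) [Group G] [Finite G], SecGen s G →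
      ∃ (V : Type) (_ : Finite V) (X : SimpleGraph V),
        Nonempty ((X ≃g X) ≃* G) ∧ Nat.card X.edgeSet ≤ 7920 * (s + 1) * Nat.card G := by
    intro s G _ _ hG
    obtain ⟨V, hV, X, h1, h2⟩ :=
      Pool.Agent.H245R3.EGGraph.graphR G _ (mainR strG s G hG)
    refine ⟨V, hV, X, h1, h2.trans ?_⟩
    rw [← mul_assoc]
    exact Nat.mul_le_mul_right _ (by omega)
  refine ⟨7920, ?_, key⟩
  intro G _ _ _
  obtain ⟨V, hV, X, h1, h2⟩ := key 0 G (secGen_of_solvable G)
  exact ⟨V, hV, X, h1, by simpa using h2⟩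

end Pool.Agent.H104R3.EG
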