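import Pool.Agent.H104R3.EG.Stmts

/-! # PGcR: a finite `p`-group with a cyclic self-centralizing normal subgroup is generated by three
elements (helper929). -/

set_option autoImplicit false

namespace Pool.Agent.H104R3.EG

namespace PGc929

theorem units_cyc (p : ℕ) (hp : p.Prime) (r n : ℕ) (hn : n = p ^ r) :
    ∃ C : Subgroup (ZMod n)ˣ, IsCyclic C ∧ (C.index = 1 ∨ C.index = 2) := by
  subst hn
  by_cases h2 : p = 2
  · subst h2
    by_cases hr : r ≤ 2
    · have : IsCyclic (ZMod (2 ^ r))ˣ := (ZMod.isCyclic_units_two_pow_iff r).2 hr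
      exact ⟨⊤, inferInstance, Or.inl (by simp)⟩
    · obtain ⟨k, rfl⟩ : ∃ k, r = k + 2 := ⟨r - 2, by omega⟩
      have hcop : Nat.Coprime 5 (2 ^ (k + 2)) := Nat.Coprime.pow_right _ (by norm_num)
      refine ⟨Subgroup.zpowers (ZMod.unitOfCoprime 5 hcop), inferInstance, Or.inr ?_⟩
      have ho : orderOf (ZMod.unitOfCoprime 5 hcop) = 2 ^ k := by
        rw [← orderOf_units, ← ZMod.orderOf_five k]
        simp
      have hc : Nat.card (Subgroup.zpowers (ZMod.unitOfCoprime 5 hcop)) = 2 ^ k := by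
        rw [Nat.card_zpowers, ho]
      have ht : Nat.card (ZMod (2 ^ (k + 2)))ˣ = 2 ^ (k + 1) := by
        rw [Nat.card_eq_fintype_card, ZMod.card_units_eq_totient,
          Nat.totient_prime_pow Nat.prime_two (by omega)]
        simp
      have hm := (Subgroup.zpowers (ZMod.unitOfCoprime 5 hcop)).card_mul_index
      rw [hc, ht] at hm
      have h3 : (2 : ℕ) ^ (k + 1) = 2 ^ k * 2 := pow_succ 2 k
      exact Nat.eq_of_mul_eq_mul_left (by positivity) (hm.trans h3)
  · have : IsCyclic (ZMod (p ^ r))ˣ := ZMod.isCyclic_units_of_prime_pow p hp h2 r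
    exact ⟨⊤, inferInstance, Or.inl (by simp)⟩

theorem gen2 {U : Type} [Group U] (C : Subgroup U) (hC : IsCyclic C)
    (hi : C.index = 1 ∨ C.index = 2) (R : Subgroup U) :
    ∃ x ∈ R, ∃ y ∈ R, R ≤ Subgroup.closure {x, y} := by
  obtain ⟨g, hg⟩ := (Subgroup.isCyclic ((R ⊓ C).subgroupOf C)).exists_generator
  have hx : ((g : C) : U) ∈ R ⊓ C := g.2
  have hD : ∀ z ∈ R ⊓ C, z ∈ Subgroup.zpowers ((g : C) : U) := by
    intro z hz
    obtain ⟨k, hk⟩ := hg ⟨⟨z, hz.2⟩, hz⟩
    refine ⟨k, ?_⟩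
    have := congrArg (fun t : (R ⊓ C).subgroupOf C => ((t : C) : U)) hk
    simpa using this
  by_cases hRC : R ≤ C
  · refine ⟨_, hx.1, _, hx.1, fun z hz => ?_⟩
    have := hD z ⟨hz, hRC hz⟩
    rw [Set.pair_eq_singleton, ← Subgroup.zpowers_eq_closure]
    exact this
  · obtain ⟨y, hyR, hyC⟩ := Set.not_subset.1 hRC
    replace hyC : y ∉ C := hyC
    have hi2 : C.index = 2 := by
      rcases hi with h | h
      · exact absurd (by rw [Subgroup.index_eq_one.1 h]; exact Subgroup.mem_top y) hyC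
      · exact h
    refine ⟨_, hx.1, y, hyR, fun z hz => ?_⟩
    have hsub : ∀ w ∈ Subgroup.zpowers ((g : C) : U),
        w ∈ Subgroup.closure {((g : C) : U), y} := by
      intro w hw
      rw [Subgroup.zpowers_eq_closure] at hw
      exact Subgroup.closure_mono (by simp) hw
    by_cases hzC : z ∈ C
    · exact hsub z (hD z ⟨hz, hzC⟩)
    · have h1 : y * z⁻¹ * z = y := by group
      have h2 : y⁻¹ * z ∈ C := by
        rw [Subgroup.mul_mem_iff_of_index_two hi2]
        simp [hyC, hzC]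
      have h3 := hsub _ (hD _ ⟨R.mul_mem (R.inv_mem hyR) hz, h2⟩)
      have h4 : y ∈ Subgroup.closure {((g : C) : U), y} := Subgroup.subset_closure (by simp)
      have h5 := Subgroup.mul_mem _ h4 h3
      simpa using h5

end PGc929

open PGc929 in
theorem pgcR : PGcR := by
  intro p hp P _ _ hP A hA hcyc hself
  have : Fact p.Prime := ⟨hp⟩
  obtain ⟨r, hr⟩ := IsPGroup.iff_card.mp (hP.to_subgroup A)
  obtain ⟨C, hC, hi⟩ := units_cyc p hp r (Nat.card A) hr
  have hconj : ∀ (x : P), MulAut.conjNormal (H := A) x = 1 → ∀ y ∈ A, x * y = y * x := by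
    intro x hx y hy
    have h1 := congrArg (fun t : MulAut A => ((t ⟨y, hy⟩ : A) : P)) hx
    simp only [MulAut.conjNormal_apply, MulAut.one_apply] at h1
    calc x * y = x * y * x⁻¹ * x := by group
      _ = y * x := by rw [h1]
  let f : P →* (ZMod (Nat.card A))ˣ :=
    (IsCyclic.mulAutMulEquiv A).toMonoidHom.comp (MulAut.conjNormal (H := A))
  have hf : ∀ x, f x = 1 → x ∈ A := by
    intro x hx
    apply hself
    apply hconj
    have : IsCyclic.mulAutMulEquiv A (MulAut.conjNormal (H := A) x) = 1 := hx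
    exact (MulEquiv.map_eq_one_iff _).1 this
  obtain ⟨u, ⟨b, rfl⟩, v, ⟨c, rfl⟩, hR⟩ := gen2 C hC hi f.range
  obtain ⟨a, ha⟩ := hcyc.exists_generator
  refine ⟨a, b, c, ?_⟩
  rw [eq_top_iff]
  intro z _
  have h1 : f z ∈ Subgroup.map f (Subgroup.closure {b, c}) := by
    rw [MonoidHom.map_closure, Set.image_pair]
    exact hR ⟨z, rfl⟩
  obtain ⟨w, hw, hwz⟩ := h1
  have h2 : w⁻¹ * z ∈ A := hf _ (by rw [map_mul, map_inv, hwz, inv_mul_cancel])
  obtain ⟨k, hk⟩ := ha ⟨w⁻¹ * z, h2⟩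
  have h3 : (a : P) ^ k = w⁻¹ * z := by
    have := congrArg (fun t : A => (t : P)) hk
    simpa using this
  have h4 : (a : P) ∈ Subgroup.closure {(a : P), b, c} := Subgroup.subset_closure (by simp)
  have h5 : w ∈ Subgroup.closure {(a : P), b, c} :=
    Subgroup.closure_mono (by intro t ht; simp at ht ⊢; tauto) hw
  have h6 := Subgroup.mul_mem _ h5 (Subgroup.zpow_mem _ h4 k)
  rw [h3] at h6
  simpa using h6

end Pool.Agent.H104R3.EG
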